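import Mathlib

set_option autoImplicit false

/-!
# Finitely generated normal subgroups of parafree groups (MP_f3dc04_al): definitions and blueprint
-/

namespace Pool.Agent.H635PF

open Matrix

/-- Functions `c : G → (R → A)` with `c (g h) (w) = c g (h w) + c h w`. -/
def IsCoc {G R A : Type} [Group G] [MulAction G R] [AddCommGroup A] (c : G → R → A) : Prop :=
  ∀ (g h : G) (w : R), c (g * h) w = c g (h • w) + c h w

/-! ## Linear algebra -/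

noncomputable def PiM {ι κ : Type} [Fintype ι] [DecidableEq ι] [Fintype κ] (M : Matrix ι κ ℝ)
    (Λ : ℝ) (m : ℕ) : Matrix ι ι ℝ := 1 - (1 - Λ⁻¹ • (M * Mᵀ)) ^ (2 * m)

/-- Facts on a symmetric matrix with spectrum in `[0, 1]`. -/
def S_PSD : Prop := ∀ (κ : Type) [Fintype κ] [DecidableEq κ] (b : Matrix κ κ ℝ), bᵀ = b →
  (∀ v : κ → ℝ, 0 ≤ v ⬝ᵥ (b *ᵥ v)) → (∀ v : κ → ℝ, v ⬝ᵥ (b *ᵥ v) ≤ v ⬝ᵥ v) →
  (∀ (n : ℕ) (v : κ → ℝ), v ⬝ᵥ ((b * (1 - b) ^ n) *ᵥ v) ≤ (v ⬝ᵥ v) / (n + 1)) ∧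
  (∀ (n : ℕ) (v : κ → ℝ), ((1 - (1 - b) ^ n) *ᵥ v) ⬝ᵥ ((1 - (1 - b) ^ n) *ᵥ v) ≤ v ⬝ᵥ v)

/-- The main inequality. -/
def S_LA : Prop := ∀ (ι κ σ : Type) [Fintype ι] [DecidableEq ι] [Fintype κ] [DecidableEq κ]
  [Fintype σ] [DecidableEq σ] (M : Matrix ι κ ℝ) (Λ C : ℝ), 0 < Λ → 0 ≤ C →
  (∀ v : κ → ℝ, (M *ᵥ v) ⬝ᵥ (M *ᵥ v) ≤ Λ * (v ⬝ᵥ v)) →
  ∀ (J : Matrix ι σ ℝ) (d : ℕ) (z : Fin d → σ → ℝ),
  (∀ a b, z a ⬝ᵥ z b = if a = b then 1 else 0) →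
  ∀ (L : Fin d → κ → ℝ), (∀ a, L a ⬝ᵥ L a ≤ C) → (∀ a, J *ᵥ z a = M *ᵥ L a) →
  ∀ m : ℕ, (∀ i : ι, (Jᵀ *ᵥ (PiM M Λ m *ᵥ Pi.single i 1)) ⬝ᵥ (Jᵀ *ᵥ (PiM M Λ m *ᵥ Pi.single i 1)) ≤
    (PiM M Λ m *ᵥ Pi.single i 1) ⬝ᵥ (PiM M Λ m *ᵥ Pi.single i 1)) →
  ∑ a, (J *ᵥ z a) ⬝ᵥ (J *ᵥ z a) ≤ (Fintype.card κ : ℝ) + d * (2 * Λ * C / (2 * m + 1))

/-- Orthonormalisation. -/
def S_GS : Prop := ∀ (σ S : Type) [Fintype σ] [Fintype S] (u : S → σ → ℝ),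
  LinearIndependent ℝ u → ∃ lam : Fin (Fintype.card S) → S → ℝ,
    ∀ a b, (∑ s, lam a s • u s) ⬝ᵥ (∑ s, lam b s • u s) = if a = b then 1 else 0

/-- Bessel for one coordinate. -/
def S_BES : Prop := ∀ (σ : Type) [Fintype σ] (d : ℕ) (z : Fin d → σ → ℝ),
  (∀ a b, z a ⬝ᵥ z b = if a = b then 1 else 0) → ∀ s : σ, ∑ a, z a s ^ 2 ≤ 1

/-! ## Operators given by finitely many group elements -/

/-- The operator `(v, i, w) ↦ ∑_{(q, j, b) ∈ spec i} q v (j, b w)`. -/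
def opM {G I J : Type} [Group G] [DecidableEq J] (spec : I → List (ℝ × J × G)) (R : Type)
    [DecidableEq R] [MulAction G R] : Matrix (I × R) (J × R) ℝ := fun p q =>
  ((spec p.1).map fun s => if s.2.1 = q.1 ∧ s.2.2 • p.2 = q.2 then s.1 else 0).sum

def S_OPV : Prop := ∀ (G I J R : Type) [Group G] [Fintype J] [DecidableEq J] [Fintype R]
  [DecidableEq R] [MulAction G R] (spec : I → List (ℝ × J × G)) (v : J × R → ℝ) (i : I) (w : R),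
  (opM spec R *ᵥ v) (i, w) = ((spec i).map fun s => s.1 * v (s.2.1, s.2.2 • w)).sum

def S_OPN : Prop := ∀ (G I J : Type) [Group G] [Fintype I] [Fintype J] [DecidableEq J]
  (spec : I → List (ℝ × J × G)), ∃ Λ : ℝ, 0 < Λ ∧
  ∀ (R : Type) [Fintype R] [DecidableEq R] [MulAction G R] (v : J × R → ℝ),
    (opM spec R *ᵥ v) ⬝ᵥ (opM spec R *ᵥ v) ≤ Λ * (v ⬝ᵥ v)

/-- `X` has its support in the pairs `(w, b w)`, `b ∈ B`. -/
def Loc {G I J R : Type} [Group G] [MulAction G R] (B : Set G) (X : Matrix (I × R) (J × R) ℝ) :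
    Prop := ∀ p q, X p q ≠ 0 → ∃ b ∈ B, b • p.2 = q.2

def S_LOC : Prop := ∀ (G I J : Type) [Group G] [Fintype I] [DecidableEq I] [Fintype J]
  [DecidableEq J] (N : Subgroup G) (spec : I → List (ℝ × J × G)),
  (∀ i, ∀ s ∈ spec i, s.2.2 ∈ N) → ∀ (Λ : ℝ) (m : ℕ), ∃ B : Finset G, (∀ b ∈ B, b ∈ N) ∧
  ∀ (R : Type) [Fintype R] [DecidableEq R] [MulAction G R],
    Loc (B : Set G) (PiM (opM spec R) Λ m)

/-- The coordinates `(i, w)` are copied to `((i, x), w)` shifted by `Fx x`. -/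
def Jm {G : Type} [Group G] (t M : ℕ) (Fx : Fin M → G) (R σ₂ : Type) [DecidableEq R]
    [MulAction G R] : Matrix ((Fin t × Fin M) × R) ((Fin t × R) ⊕ σ₂) ℝ := fun p q =>
  Sum.elim (fun a : Fin t × R => if a.1 = p.1.1 ∧ Fx p.1.2 • p.2 = a.2 then 1 else 0)
    (fun _ => 0) q

def S_JV : Prop := ∀ (G : Type) [Group G] (t M : ℕ) (Fx : Fin M → G) (R σ₂ : Type) [Fintype R]
  [DecidableEq R] [MulAction G R] [Fintype σ₂] (z : (Fin t × R) ⊕ σ₂ → ℝ),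
  (∀ (i : Fin t) (x : Fin M) (w : R),
    (Jm t M Fx R σ₂ *ᵥ z) ((i, x), w) = z (Sum.inl (i, Fx x • w))) ∧
  (Jm t M Fx R σ₂ *ᵥ z) ⬝ᵥ (Jm t M Fx R σ₂ *ᵥ z) = M * ∑ i, ∑ w, z (Sum.inl (i, w)) ^ 2

def S_HP : Prop := ∀ (G : Type) [Group G] (N : Subgroup G) (t M : ℕ) (Fx : Fin M → G),
  (∀ x x', x ≠ x' → (Fx x)⁻¹ * Fx x' ∉ N) → ∀ B : Finset G, (∀ b ∈ B, b ∈ N) →
  ∃ B' : Finset G, (∀ b ∈ B', b ≠ 1) ∧ ∀ (R σ₂ : Type) [Fintype R] [DecidableEq R]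
    [MulAction G R] [Fintype σ₂], (∀ b ∈ B', ∀ w : R, b • w ≠ w) →
    ∀ (X : Matrix ((Fin t × Fin M) × R) ((Fin t × Fin M) × R) ℝ), Loc (B : Set G) X → ∀ i,
      ((Jm t M Fx R σ₂)ᵀ *ᵥ (X *ᵥ Pi.single i 1)) ⬝ᵥ ((Jm t M Fx R σ₂)ᵀ *ᵥ (X *ᵥ Pi.single i 1)) ≤
        (X *ᵥ Pi.single i 1) ⬝ᵥ (X *ᵥ Pi.single i 1)

/-! ## Cocycles -/

/-- The value of a cocycle at an element of the subgroup generated by `T`. -/
def S_WORD : Prop := ∀ (G : Type) [Group G] (t : ℕ) (T : Fin t → G) (n : G),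
  n ∈ Subgroup.closure (Set.range T) → ∃ L : List (ℝ × Fin t × G),
    (∀ s ∈ L, s.2.2 ∈ Subgroup.closure (Set.range T)) ∧
    ∀ (R : Type) [MulAction G R] (c : G → R → ℝ), IsCoc c →
      ∀ w, c n w = (L.map fun s => s.1 * c (T s.2.1) (s.2.2 • w)).sum

def spc {G : Type} [Group G] {t M : ℕ} (T : Fin t → G) (Fx : Fin M → G)
    (Wd : Fin t → Fin M → List (ℝ × Fin t × G)) (p : Fin t × Fin M) :
    List (ℝ × (Fin t ⊕ Fin M) × G) :=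
  (1, Sum.inr p.2, (Fx p.2)⁻¹ * T p.1 * Fx p.2) :: (-1, Sum.inr p.2, 1) ::
    (Wd p.1 p.2).map fun s => (s.1, Sum.inl s.2.1, s.2.2)

/-- The values of the cocycle at `T` and `Fx`. -/
def vc {G R : Type} {t M : ℕ} (T : Fin t → G) (Fx : Fin M → G) (c : G → R → ℝ)
    (q : (Fin t ⊕ Fin M) × R) : ℝ := Sum.elim (fun i => c (T i) q.2) (fun x => c (Fx x) q.2) q.1

def S_REL : Prop := ∀ (G : Type) [Group G] (t M : ℕ) (T : Fin t → G) (Fx : Fin M → G)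
  (Wd : Fin t → Fin M → List (ℝ × Fin t × G)) (R : Type) [Fintype R] [DecidableEq R]
  [MulAction G R] (c : G → R → ℝ), IsCoc c →
  (∀ i x w, c ((Fx x)⁻¹ * T i * Fx x) w =
    ((Wd i x).map fun s => s.1 * c (T s.2.1) (s.2.2 • w)).sum) →
  ∀ (i : Fin t) (x : Fin M) (w : R),
    (opM (spc T Fx Wd) R *ᵥ vc T Fx c) ((i, x), w) = c (T i) (Fx x • w)

def S_BND : Prop := ∀ (G : Type) [Group G] (N : Subgroup G), N.Normal →
  ∀ (t e : ℕ) (T : Fin t → G) (E : Fin e → G) (A : Finset G),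
  Subgroup.closure (Set.range T) = N → (∀ a ∈ A, a ∈ N) → ∃ C : ℝ, 0 ≤ C ∧
  ∀ (R : Type) [Fintype R] [MulAction G R] (Dd : Finset R),
    (∀ w : R, ∃ d ∈ Dd, ∃ a ∈ A, ∃ a' ∈ A, a • w = a' • d) →
    ∀ c : G → R → ℝ, IsCoc c →
      (∑ i, ∑ w, c (T i) w ^ 2) + ∑ j, ∑ w, c (E j) w ^ 2 ≤
        C * ((∑ i, ∑ w, c (T i) w ^ 2) + ∑ j, ∑ d ∈ Dd, c (E j) d ^ 2)

def S_PK : Prop := ∀ (G : Type) [Group G] (R : Type) [Fintype R] [MulAction G R] (A : Finset G),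
  A.Nonempty → (∀ a ∈ A, ∀ a' ∈ A, a ≠ a' → ∀ w : R, a • w ≠ a' • w) →
  ∃ Dd : Finset R, Dd.card * A.card ≤ Fintype.card R ∧
    ∀ w : R, ∃ d ∈ Dd, ∃ a ∈ A, ∃ a' ∈ A, a • w = a' • d

/-- One finite `G`-set: the inequality with an error term. -/
def S_STEP : Prop := ∀ (G : Type) [Group G] (t e k M : ℕ) (T : Fin t → G) (E : Fin e → G)
  (y : Fin k → Fin e) (f : Fin M → Fin e) (Wd : Fin t → Fin M → List (ℝ × Fin t × G))
  (R : Type) [Fintype R] [DecidableEq R] [MulAction G R] (Dd : Finset R) (Λ C : ℝ) (m : ℕ),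
  0 < Λ → 0 ≤ C →
  (∀ c : G → R → ℝ, IsCoc c → ∀ i x w, c ((E (f x))⁻¹ * T i * E (f x)) w =
    ((Wd i x).map fun s => s.1 * c (T s.2.1) (s.2.2 • w)).sum) →
  (∀ v, (opM (spc T (E ∘ f) Wd) R *ᵥ v) ⬝ᵥ (opM (spc T (E ∘ f) Wd) R *ᵥ v) ≤ Λ * (v ⬝ᵥ v)) →
  (∀ c : G → R → ℝ, IsCoc c → (∑ i, ∑ w, c (T i) w ^ 2) + ∑ j, ∑ w, c (E j) w ^ 2 ≤
        C * ((∑ i, ∑ w, c (T i) w ^ 2) + ∑ j, ∑ d ∈ Dd, c (E j) d ^ 2)) →
  (∀ i, ((Jm t M (E ∘ f) R (Fin e × Dd))ᵀ *ᵥ (PiM (opM (spc T (E ∘ f) Wd) R) Λ m *ᵥ Pi.single i 1))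
      ⬝ᵥ ((Jm t M (E ∘ f) R (Fin e × Dd))ᵀ *ᵥ
        (PiM (opM (spc T (E ∘ f) Wd) R) Λ m *ᵥ Pi.single i 1)) ≤
      (PiM (opM (spc T (E ∘ f) Wd) R) Λ m *ᵥ Pi.single i 1) ⬝ᵥ
        (PiM (opM (spc T (E ∘ f) Wd) R) Λ m *ᵥ Pi.single i 1)) →
  (∃ c : Fin k × R → G → R → ℝ, (∀ s, IsCoc (c s)) ∧ (∀ s, c s (E (y s.1)) s.2 = 1) ∧
    ∀ s i r, s ≠ (i, r) → c s (E (y i)) r = 0) →
  (M : ℝ) * (k * Fintype.card R - e * Dd.card) ≤ (t + M) * Fintype.card R +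
    k * Fintype.card R * (2 * Λ * ((M + 1) * C) / (2 * m + 1))

/-- The index of a finitely generated infinite normal subgroup is bounded. -/
def S_CORE : Prop := ∀ (G : Type) [Group G] (N : Subgroup G), N.Normal →
  ∀ (t e k M : ℕ) (T : Fin t → G) (E : Fin e → G) (y : Fin k → Fin e) (f : Fin M → Fin e)
    (A : Finset G), Subgroup.closure (Set.range T) = N →
  (∀ x x', x ≠ x' → (E (f x))⁻¹ * E (f x') ∉ N) → (∀ a ∈ A, a ∈ N) → A.Nonempty →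
  (∀ B : Finset G, (∀ b ∈ B, b ≠ 1) → ∃ (R : Type) (_ : Fintype R) (_ : Nonempty R)
    (_ : MulAction G R), (∀ b ∈ B, ∀ w : R, b • w ≠ w) ∧
    ∃ c : Fin k × R → G → R → ℝ, (∀ s, IsCoc (c s)) ∧ (∀ s, c s (E (y s.1)) s.2 = 1) ∧
      ∀ s i r, s ≠ (i, r) → c s (E (y i)) r = 0) →
  M * k * A.card ≤ (t + M) * A.card + M * e

/-! ## Parafree groups -/

/-- `lcs G n = γ_{n+1}(G)` -/
abbrev lcs (G : Type) [Group G] (n : ℕ) : Subgroup G := (⊤ : Subgroup G).lowerCentralSeries n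

/-- A group `P` is parafree if its lower central series has trivial intersection and there is a
free group with the same lower central quotients. -/
def IsParafree (P : Type) [Group P] : Prop :=
  (⨅ n : ℕ, (⊤ : Subgroup P).lowerCentralSeries n) = ⊥ ∧
    ∃ X : Type, ∀ n : ℕ, Nonempty
      ((P ⧸ (⊤ : Subgroup P).lowerCentralSeries n) ≃*
        (FreeGroup X ⧸ (⊤ : Subgroup (FreeGroup X)).lowerCentralSeries n))

/-- `θ` induces isomorphisms of all lower central quotients. -/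
def IsPara {X P : Type} [Group P] (θ : FreeGroup X →* P) : Prop :=
  (∀ (n : ℕ) (w : FreeGroup X), θ w ∈ lcs P n → w ∈ lcs (FreeGroup X) n) ∧
  (∀ (n : ℕ) (g : P), ∃ w : FreeGroup X, (θ w)⁻¹ * g ∈ lcs P n)

/-- An endomorphism of a nilpotent group that is the identity on the abelianization is injective. -/
def S_UNI : Prop := ∀ (H : Type) [Group H] (n : ℕ), lcs H n = ⊥ → ∀ ε : H →* H,
  (∀ x, x⁻¹ * ε x ∈ commutator H) → Function.Injective ε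

def S_THETA : Prop := ∀ (P X : Type) [Group P], (∀ n : ℕ, Nonempty
      ((P ⧸ lcs P n) ≃* (FreeGroup X ⧸ lcs (FreeGroup X) n))) →
  ∃ θ : FreeGroup X →* P, IsPara θ

def S_LIFT : Prop := ∀ (P X : Type) [Group P] (θ : FreeGroup X →* P), IsPara θ →
  ∀ (H : Type) [Group H] [Group.IsNilpotent H],
    (∀ h : FreeGroup X →* H, ∃ h' : P →* H, ∀ w, h' (θ w) = h w) ∧
    (∀ h₁ h₂ : P →* H, (∀ w, h₁ (θ w) = h₂ (θ w)) → h₁ = h₂)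

/-- The free nilpotent groups are residually finite-`p`. -/
def S_RF : Prop := ∀ (X : Type) (p : ℕ) [Fact p.Prime] (n : ℕ) (W : Finset (FreeGroup X)),
  (∀ w ∈ W, w ∉ lcs (FreeGroup X) n) → ∃ (H : Type) (_ : Group H) (_ : Finite H)
    (h : FreeGroup X →* H), IsPGroup p H ∧ lcs H n = ⊥ ∧ ∀ w ∈ W, h w ≠ 1

/-- One element, finite rank. -/
def S_RF1 : Prop := ∀ (r p : ℕ) [Fact p.Prime] (n : ℕ) (w : FreeGroup (Fin r)),
  w ∉ lcs (FreeGroup (Fin r)) n → ∃ (H : Type) (_ : Group H) (_ : Finite H)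
    (h : FreeGroup (Fin r) →* H), IsPGroup p H ∧ lcs H n = ⊥ ∧ h w ≠ 1

/-- An additive map from the product of the rings `ℤ/p^j` to `ℝ` with `1 ↦ 1`. -/
def S_DIV : Prop := ∀ p : ℕ, p.Prime → ∃ π : ((j : ℕ) → ZMod (p ^ j)) →+ ℝ, π 1 = 1

/-- Real cocycles with prescribed values at the free generators. -/
def S_COC : Prop := ∀ (P X : Type) [Group P] (θ : FreeGroup X →* P), IsPara θ →
  ∀ (p : ℕ) [Fact p.Prime] (R : Type) [Group R] [Finite R], IsPGroup p R → ∀ (φ : P →* R)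
    (i : X) (r : R), ∃ c : P → R → ℝ, (∀ g h w, c (g * h) w = c g (φ h * w) + c h w) ∧
      c (θ (FreeGroup.of i)) r = 1 ∧
      ∀ (j : X) (s : R), (i, r) ≠ (j, s) → c (θ (FreeGroup.of j)) s = 0

/-- Parafree groups are residually finite-`p`. -/
def S_RP : Prop := ∀ (P X : Type) [Group P] (θ : FreeGroup X →* P), IsPara θ →
  (⨅ n : ℕ, (⊤ : Subgroup P).lowerCentralSeries n) = ⊥ →
  ∀ (p : ℕ) [Fact p.Prime] (B : Finset P), (∀ b ∈ B, b ≠ 1) →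
    ∃ (R : Type) (_ : Group R) (_ : Finite R) (φ : P →* R), IsPGroup p R ∧ ∀ b ∈ B, φ b ≠ 1

/-- The case of rank at most one. -/
def S_SMALL : Prop := ∀ (P X : Type) [Group P] [Subsingleton X] (θ : FreeGroup X →* P), IsPara θ →
  (⨅ n : ℕ, (⊤ : Subgroup P).lowerCentralSeries n) = ⊥ →
  ∀ N : Subgroup P, N ≠ ⊥ → N.index ≠ 0

/-- The main theorem in rank at least two. -/
def S_BIG : Prop := ∀ (P X : Type) [Group P] [Nontrivial X] (θ : FreeGroup X →* P), IsPara θ →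
  (⨅ n : ℕ, (⊤ : Subgroup P).lowerCentralSeries n) = ⊥ →
  ∀ N : Subgroup P, N.Normal → N ≠ ⊥ → N.FG → N.index ≠ 0

end Pool.Agent.H635PF
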