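import Mathlib
import Pool.Agent.H635PF.Stm

set_option autoImplicit false

namespace Pool.Agent.H635PF.JBES

open Pool.Agent.H635PF Matrix

theorem t_BES : S_BES := by
  intro σ _ d z hz s
  classical
  set x : ℝ := ∑ a, z a s ^ 2 with hx
  have hvv : ∑ t : σ, (∑ a, z a s * z a t) ^ 2 = x := by
    have h1 : ∀ t : σ, (∑ a, z a s * z a t) ^ 2
        = ∑ a, ∑ b, z a s * z b s * (z a t * z b t) := by
      intro t
      rw [sq, Finset.sum_mul_sum]
      refine Finset.sum_congr rfl fun a _ => Finset.sum_congr rfl fun b _ => ?_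
      ring
    rw [Finset.sum_congr rfl fun t _ => h1 t, Finset.sum_comm]
    rw [hx]
    refine Finset.sum_congr rfl fun a _ => ?_
    rw [Finset.sum_comm]
    have h2 : ∀ b : Fin d, ∑ t : σ, z a s * z b s * (z a t * z b t)
        = z a s * z b s * (if a = b then 1 else 0) := by
      intro b
      rw [← Finset.mul_sum]
      congr 1
      exact hz a b
    rw [Finset.sum_congr rfl fun b _ => h2 b]
    simp only [mul_ite, mul_one, mul_zero, Finset.sum_ite_eq, Finset.mem_univ, if_true]
    ring
  have hvs : (∑ a, z a s * z a s) = x := by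
    rw [hx]
    exact Finset.sum_congr rfl fun a _ => (sq (z a s)).symm
  have h3 : x ^ 2 ≤ x := by
    calc x ^ 2 = (∑ a, z a s * z a s) ^ 2 := by rw [hvs]
      _ ≤ ∑ t : σ, (∑ a, z a s * z a t) ^ 2 :=
          Finset.single_le_sum (f := fun t : σ => (∑ a, z a s * z a t) ^ 2)
            (fun t _ => sq_nonneg _) (Finset.mem_univ s)
      _ = x := hvv
  have h0 : 0 ≤ x := by
    rw [hx]
    exact Finset.sum_nonneg fun a _ => sq_nonneg _
  by_contra hc
  push Not at hc
  nlinarith

end Pool.Agent.H635PF.JBES
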