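import Mathlib
import Pool.Agent.H635PF.Stm

set_option autoImplicit false

namespace Pool.Agent.H635PF.JBIG

open Pool.Agent.H635PF Matrix

/-- Parafree groups are torsion free. -/
theorem torsion_free (h3 : S_RP) (P X : Type) [Group P] (θ : FreeGroup X →* P) (hθ : IsPara θ)
    (hinf : (⨅ n : ℕ, (⊤ : Subgroup P).lowerCentralSeries n) = ⊥) (b : P) (hb : b ≠ 1) :
    ¬ IsOfFinOrder b := by
  intro hfin
  have h0 : orderOf b ≠ 0 := hfin.orderOf_pos.ne'
  have h1 : orderOf b ≠ 1 := by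
    rw [Ne, orderOf_eq_one_iff]
    exact hb
  obtain ⟨q, hq, hqd⟩ := Nat.exists_prime_and_dvd h1
  have hord : orderOf (b ^ (orderOf b / q)) = q := orderOf_pow_orderOf_div h0 hqd
  have hne : b ^ (orderOf b / q) ≠ 1 := by
    intro h
    rw [h, orderOf_one] at hord
    exact hq.one_lt.ne hord
  obtain ⟨p, hp, hpq⟩ : ∃ p : ℕ, p.Prime ∧ p ≠ q := by
    by_cases h2 : q = 2
    · exact ⟨3, Nat.prime_three, by omega⟩
    · exact ⟨2, Nat.prime_two, fun h => h2 h.symm⟩
  have : Fact p.Prime := ⟨hp⟩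
  obtain ⟨R, _, _, φ, hpg, hφ⟩ := h3 P X θ hθ hinf p {b ^ (orderOf b / q)} (by
    intro x hx
    rw [Finset.mem_singleton] at hx
    rw [hx]
    exact hne)
  have hφ' := hφ _ (Finset.mem_singleton_self _)
  obtain ⟨k, hk⟩ := hpg (φ (b ^ (orderOf b / q)))
  have hdq : orderOf (φ (b ^ (orderOf b / q))) ∣ q := by
    have := orderOf_map_dvd φ (b ^ (orderOf b / q))
    rwa [hord] at this
  have hdp : orderOf (φ (b ^ (orderOf b / q))) ∣ p ^ k := orderOf_dvd_of_pow_eq_one hk
  have hcop : Nat.Coprime q (p ^ k) :=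
    Nat.Coprime.pow_right k ((Nat.coprime_primes hq hp).2 (Ne.symm hpq))
  have h11 : orderOf (φ (b ^ (orderOf b / q))) ∣ 1 := by
    have := Nat.dvd_gcd hdq hdp
    rwa [hcop] at this
  exact hφ' (orderOf_eq_one_iff.1 (Nat.dvd_one.1 h11))

theorem t_BIG (h1 : S_CORE) (h2 : S_COC) (h3 : S_RP) : S_BIG := by
  intro P X _ _ θ hθ hinf N hN hne hFG hidx
  obtain ⟨S, hS⟩ := hFG
  set t : ℕ := S.card with ht
  let T : Fin t → P := fun i => (S.equivFin.symm i : P)
  have hT : Set.range T = (S : Set P) := by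
    ext x
    constructor
    · rintro ⟨i, rfl⟩
      exact (S.equivFin.symm i).2
    · intro hx
      refine ⟨S.equivFin ⟨x, hx⟩, ?_⟩
      simp [T]
  have hTN : Subgroup.closure (Set.range T) = N := by rw [hT, hS]
  have : Infinite (P ⧸ N) := Subgroup.index_eq_zero_iff_infinite.1 hidx
  let M : ℕ := t + 1
  let em : ℕ ↪ P ⧸ N := Infinite.natEmbedding (P ⧸ N)
  let g : Fin M → P := fun x => Quotient.out (em x)
  have hg : ∀ x x' : Fin M, x ≠ x' → (g x)⁻¹ * g x' ∉ N := by
    intro x x' hx hmem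
    have h : ((g x : P) : P ⧸ N) = ((g x' : P) : P ⧸ N) := QuotientGroup.eq.2 hmem
    have e1 : ∀ z : Fin M, ((g z : P) : P ⧸ N) = em z := fun z => QuotientGroup.out_eq' _
    rw [e1, e1] at h
    exact hx (Fin.ext (em.injective h))
  obtain ⟨i1, i2, hi⟩ := exists_pair_ne X
  let ii : Fin 2 → X := ![i1, i2]
  have hii : Function.Injective ii := by
    intro a b hab
    fin_cases a <;> fin_cases b
    · rfl
    · exact absurd hab hi
    · exact absurd hab hi.symm
    · rfl
  let E : Fin (2 + M) → P := Fin.append (fun i : Fin 2 => θ (FreeGroup.of (ii i))) g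
  let y : Fin 2 → Fin (2 + M) := Fin.castAdd M
  let f : Fin M → Fin (2 + M) := Fin.natAdd 2
  have hEy : ∀ i, E (y i) = θ (FreeGroup.of (ii i)) := fun i => Fin.append_left _ _ i
  have hEf : ∀ x, E (f x) = g x := fun x => Fin.append_right _ _ x
  obtain ⟨b, hbN, hb1⟩ : ∃ b ∈ N, b ≠ 1 := by
    by_contra hcon
    push Not at hcon
    exact hne ((Subgroup.eq_bot_iff_forall N).2 hcon)
  have htf := torsion_free h3 P X θ hθ hinf b hb1
  have hinj : Function.Injective fun n : ℕ => b ^ n := injective_pow_iff_not_isOfFinOrder.2 htf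
  classical
  let ν : ℕ := (t + 1) * (t + 3) + 1
  let A : Finset P := (Finset.range ν).image fun n : ℕ => b ^ n
  have hAc : A.card = ν := by
    rw [Finset.card_image_of_injective _ hinj, Finset.card_range]
  have hAN : ∀ a ∈ A, a ∈ N := by
    intro a ha
    obtain ⟨n, -, rfl⟩ := Finset.mem_image.1 ha
    exact N.pow_mem hbN n
  have hA0 : A.Nonempty := by
    rw [← Finset.card_pos, hAc]
    exact Nat.succ_pos _
  have key := h1 P N hN t (2 + M) 2 M T E y f A hTN (by
    intro x x' hx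
    rw [hEf, hEf]
    exact hg x x' hx) hAN hA0 (by
    intro B hB
    have : Fact (Nat.Prime 2) := ⟨Nat.prime_two⟩
    obtain ⟨R, _, _, φ, hpg, hφ⟩ := h3 P X θ hθ hinf 2 B hB
    have hc := fun s : Fin 2 × R => h2 P X θ hθ 2 R hpg φ (ii s.1) s.2
    choose c hc1 hc2 hc3 using hc
    refine ⟨R, Fintype.ofFinite R, ⟨1⟩, MulAction.compHom R φ, ?_, c, ?_, ?_, ?_⟩
    · intro b hb w hw
      have h : φ b * w = w := hw
      exact hφ b hb (mul_eq_right.1 h)
    · intro s g h w
      exact hc1 s g h w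
    · intro s
      rw [hEy]
      exact hc2 s
    · intro s i r hs
      rw [hEy]
      refine hc3 s (ii i) r ?_
      intro h
      apply hs
      have h5 := Prod.mk.inj h
      exact Prod.ext (hii h5.1) h5.2)
  rw [hAc] at key
  have e1 : M * 2 * ν = (t + M) * ν + ν := by
    show (t + 1) * 2 * ν = (t + (t + 1)) * ν + ν
    ring
  have e2 : M * (2 + M) = (t + 1) * (t + 3) := by
    show (t + 1) * (2 + (t + 1)) = (t + 1) * (t + 3)
    ring
  have e3 : ν = (t + 1) * (t + 3) + 1 := rfl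
  rw [e1, e2] at key
  omega

end Pool.Agent.H635PF.JBIG
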