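import Mathlib
import Pool.Agent.H635PF.Stm

set_option autoImplicit false

namespace Pool.Agent.H635PF.JBND

open Pool.Agent.H635PF Matrix

theorem smul_sum {G R : Type} [Group G] [Fintype R] [MulAction G R] (b : G) (f : R → ℝ) :
    ∑ w, f (b • w) = ∑ w, f w :=
  Equiv.sum_comp (MulAction.toPerm b) f

theorem list_bd {G : Type} [Group G] (t : ℕ) (T : Fin t → G) (L : List (ℝ × Fin t × G)) :
    ∃ l : ℝ, 0 ≤ l ∧ ∀ (R : Type) [Fintype R] [MulAction G R] (c : G → R → ℝ),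
      ∑ w, ((L.map fun s => s.1 * c (T s.2.1) (s.2.2 • w)).sum) ^ 2 ≤
        l * ∑ i, ∑ w, c (T i) w ^ 2 := by
  induction L with
  | nil => exact ⟨0, le_rfl, fun R _ _ c => by simp⟩
  | cons s L ih =>
    obtain ⟨l, hl, h⟩ := ih
    refine ⟨2 * s.1 ^ 2 + 2 * l, by positivity, ?_⟩
    intro R _ _ c
    have h1 := h R c
    have h2 : ∑ w, c (T s.2.1) w ^ 2 ≤ ∑ i, ∑ w, c (T i) w ^ 2 :=
      Finset.single_le_sum (f := fun i => ∑ w, c (T i) w ^ 2)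
        (fun i _ => Finset.sum_nonneg fun w _ => sq_nonneg _) (Finset.mem_univ s.2.1)
    calc ∑ w, (((s :: L).map fun s => s.1 * c (T s.2.1) (s.2.2 • w)).sum) ^ 2
        ≤ ∑ w, (2 * s.1 ^ 2 * c (T s.2.1) (s.2.2 • w) ^ 2 +
          2 * ((L.map fun s => s.1 * c (T s.2.1) (s.2.2 • w)).sum) ^ 2) := by
          refine Finset.sum_le_sum fun w _ => ?_
          rw [List.map_cons, List.sum_cons]
          nlinarith [sq_nonneg (s.1 * c (T s.2.1) (s.2.2 • w) -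
            (L.map fun s => s.1 * c (T s.2.1) (s.2.2 • w)).sum)]
      _ = 2 * s.1 ^ 2 * ∑ w, c (T s.2.1) w ^ 2 +
          2 * ∑ w, ((L.map fun s => s.1 * c (T s.2.1) (s.2.2 • w)).sum) ^ 2 := by
          rw [Finset.sum_add_distrib, ← Finset.mul_sum, ← Finset.mul_sum,
            smul_sum s.2.2 (fun w => c (T s.2.1) w ^ 2)]
      _ ≤ 2 * s.1 ^ 2 * (∑ i, ∑ w, c (T i) w ^ 2) + 2 * (l * ∑ i, ∑ w, c (T i) w ^ 2) := by
          gcongr
      _ = _ := by ring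

theorem cover_sum {R Q : Type} [Fintype R] [DecidableEq R] (S : Finset Q) (m : Q → R)
    (hm : ∀ w : R, ∃ q ∈ S, m q = w) (f : R → ℝ) (hf : ∀ w, 0 ≤ f w) :
    ∑ w, f w ≤ ∑ q ∈ S, f (m q) := by
  rw [← Finset.sum_fiberwise_of_maps_to (s := S) (t := Finset.univ) (g := m)
    (fun q _ => Finset.mem_univ _)]
  refine Finset.sum_le_sum fun w _ => ?_
  obtain ⟨q, hq, hqw⟩ := hm w
  have h1 := Finset.single_le_sum (f := fun q => f (m q)) (s := S.filter fun q => m q = w)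
    (fun q _ => hf _) (Finset.mem_filter.2 ⟨hq, hqw⟩)
  rw [hqw] at h1
  exact h1

theorem t_BND (h1 : S_WORD) : S_BND := by
  classical
  intro G _ N hN t e T E A hT hA
  -- constants for the elements of `N`
  have hl : ∀ n ∈ N, ∃ l : ℝ, 0 ≤ l ∧ ∀ (R : Type) [Fintype R] [MulAction G R] (c : G → R → ℝ),
      IsCoc c → ∑ w, c n w ^ 2 ≤ l * ∑ i, ∑ w, c (T i) w ^ 2 := by
    intro n hn
    obtain ⟨L, _, hL⟩ := h1 G t T n (by rw [hT]; exact hn)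
    obtain ⟨l, hl0, hl⟩ := list_bd t T L
    refine ⟨l, hl0, ?_⟩
    intro R _ _ c hc
    rw [Finset.sum_congr rfl fun w _ => by rw [hL R c hc w]]
    exact hl R c
  choose! l hl0 hl using hl
  have hnN : ∀ a ∈ A, ∀ a' ∈ A, a⁻¹ * a' ∈ N := fun a ha a' ha' =>
    N.mul_mem (N.inv_mem (hA a ha)) (hA a' ha')
  have hcN : ∀ (g : G), ∀ a ∈ A, ∀ a' ∈ A, g * (a⁻¹ * a') * g⁻¹ ∈ N := fun g a ha a' ha' =>
    hN.conj_mem _ (hnN a ha a' ha') g
  have hK0 : ∀ j : Fin e, 0 ≤ ∑ a ∈ A, ∑ a' ∈ A,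
      3 * (l (E j * (a⁻¹ * a') * (E j)⁻¹) + l (a⁻¹ * a')) := fun j =>
    Finset.sum_nonneg fun a ha => Finset.sum_nonneg fun a' ha' => by
      have := hl0 _ (hnN a ha a' ha')
      have := hl0 _ (hcN (E j) a ha a' ha')
      positivity
  refine ⟨1 + (∑ j : Fin e, ∑ a ∈ A, ∑ a' ∈ A,
      3 * (l (E j * (a⁻¹ * a') * (E j)⁻¹) + l (a⁻¹ * a'))) + 3 * ((A.card : ℝ) * A.card), ?_, ?_⟩
  · have := Finset.sum_nonneg fun j (_ : j ∈ Finset.univ) => hK0 j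
    positivity
  intro R _ _ Dd hD c hc
  set ST := ∑ i, ∑ w, c (T i) w ^ 2 with hST
  have hST0 : 0 ≤ ST := Finset.sum_nonneg fun i _ => Finset.sum_nonneg fun w _ => sq_nonneg _
  have key : ∀ j : Fin e, ∑ w, c (E j) w ^ 2 ≤
      (∑ a ∈ A, ∑ a' ∈ A, 3 * (l (E j * (a⁻¹ * a') * (E j)⁻¹) + l (a⁻¹ * a'))) * ST +
        3 * ((A.card : ℝ) * A.card) * ∑ d ∈ Dd, c (E j) d ^ 2 := by
    intro j
    have e1 : ∑ w, c (E j) w ^ 2 ≤ ∑ q ∈ A ×ˢ (A ×ˢ Dd), c (E j) ((q.1⁻¹ * q.2.1) • q.2.2) ^ 2 := by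
      refine cover_sum (A ×ˢ (A ×ˢ Dd)) (fun q : G × (G × R) => (q.1⁻¹ * q.2.1) • q.2.2) ?_
        (fun w => c (E j) w ^ 2) (fun w => sq_nonneg _)
      intro w
      obtain ⟨d, hd, a, ha, a', ha', h⟩ := hD w
      refine ⟨(a, (a', d)), Finset.mem_product.2 ⟨ha, Finset.mem_product.2 ⟨ha', hd⟩⟩, ?_⟩
      simp only
      rw [mul_smul, ← h, inv_smul_smul]
    refine e1.trans ?_
    rw [Finset.sum_product, Finset.sum_mul]
    have e2 : 3 * ((A.card : ℝ) * A.card) * ∑ d ∈ Dd, c (E j) d ^ 2 =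
        ∑ a ∈ A, ∑ a' ∈ A, 3 * ∑ d ∈ Dd, c (E j) d ^ 2 := by
      simp only [Finset.sum_const, nsmul_eq_mul]
      ring
    rw [e2, ← Finset.sum_add_distrib]
    refine Finset.sum_le_sum fun a ha => ?_
    rw [Finset.sum_product, Finset.sum_mul, ← Finset.sum_add_distrib]
    refine Finset.sum_le_sum fun a' ha' => ?_
    simp only
    set n := a⁻¹ * a' with hn
    set n' := E j * n * (E j)⁻¹ with hn'
    have hpt : ∀ d ∈ Dd, c (E j) (n • d) ^ 2 ≤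
        3 * c n' (E j • d) ^ 2 + 3 * c (E j) d ^ 2 + 3 * c n d ^ 2 := by
      intro d _
      have e3 := hc (E j) n d
      have e4 := hc n' (E j) d
      have e5 : n' * E j = E j * n := by
        rw [hn']
        group
      rw [e5] at e4
      have e6 : c (E j) (n • d) = c n' (E j • d) + c (E j) d - c n d := by linarith
      rw [e6]
      nlinarith [sq_nonneg (c n' (E j • d) - c (E j) d), sq_nonneg (c n' (E j • d) + c n d),
        sq_nonneg (c (E j) d + c n d)]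
    have hB1 : ∑ d ∈ Dd, c n' (E j • d) ^ 2 ≤ l n' * ST := by
      calc ∑ d ∈ Dd, c n' (E j • d) ^ 2 ≤ ∑ d, c n' (E j • d) ^ 2 :=
            Finset.sum_le_sum_of_subset_of_nonneg (Finset.subset_univ _) fun _ _ _ => sq_nonneg _
        _ = ∑ d, c n' d ^ 2 := smul_sum (E j) (fun d => c n' d ^ 2)
        _ ≤ l n' * ST := hl n' (hcN (E j) a ha a' ha') R c hc
    have hB2 : ∑ d ∈ Dd, c n d ^ 2 ≤ l n * ST := by
      calc ∑ d ∈ Dd, c n d ^ 2 ≤ ∑ d, c n d ^ 2 :=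
            Finset.sum_le_sum_of_subset_of_nonneg (Finset.subset_univ _) fun _ _ _ => sq_nonneg _
        _ ≤ l n * ST := hl n (hnN a ha a' ha') R c hc
    calc ∑ d ∈ Dd, c (E j) (n • d) ^ 2
        ≤ ∑ d ∈ Dd, (3 * c n' (E j • d) ^ 2 + 3 * c (E j) d ^ 2 + 3 * c n d ^ 2) :=
          Finset.sum_le_sum hpt
      _ = 3 * ∑ d ∈ Dd, c n' (E j • d) ^ 2 + 3 * ∑ d ∈ Dd, c (E j) d ^ 2 +
          3 * ∑ d ∈ Dd, c n d ^ 2 := by
          rw [Finset.sum_add_distrib, Finset.sum_add_distrib, ← Finset.mul_sum, ← Finset.mul_sum,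
            ← Finset.mul_sum]
      _ ≤ 3 * (l n' + l n) * ST + 3 * ∑ d ∈ Dd, c (E j) d ^ 2 := by
          linarith
  have hSD0 : 0 ≤ ∑ j, ∑ d ∈ Dd, c (E j) d ^ 2 :=
    Finset.sum_nonneg fun j _ => Finset.sum_nonneg fun d _ => sq_nonneg _
  have htot : ∑ j, ∑ w, c (E j) w ^ 2 ≤
      (∑ j : Fin e, ∑ a ∈ A, ∑ a' ∈ A,
        3 * (l (E j * (a⁻¹ * a') * (E j)⁻¹) + l (a⁻¹ * a'))) * ST +
        3 * ((A.card : ℝ) * A.card) * ∑ j, ∑ d ∈ Dd, c (E j) d ^ 2 := by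
    refine (Finset.sum_le_sum fun j _ => key j).trans (le_of_eq ?_)
    rw [Finset.sum_add_distrib, ← Finset.sum_mul, ← Finset.mul_sum]
  set KK := ∑ j : Fin e, ∑ a ∈ A, ∑ a' ∈ A,
    3 * (l (E j * (a⁻¹ * a') * (E j)⁻¹) + l (a⁻¹ * a')) with hKK
  have hKK0 : 0 ≤ KK := Finset.sum_nonneg fun j _ => hK0 j
  set SD := ∑ j, ∑ d ∈ Dd, c (E j) d ^ 2 with hSD
  have hcc : (0 : ℝ) ≤ 3 * ((A.card : ℝ) * A.card) := by positivity
  have h5 : 0 ≤ 3 * ((A.card : ℝ) * A.card) * ST := mul_nonneg hcc hST0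
  have h6 : 0 ≤ KK * SD := mul_nonneg hKK0 hSD0
  calc ST + ∑ j, ∑ w, c (E j) w ^ 2 ≤ ST + (KK * ST + 3 * ((A.card : ℝ) * A.card) * SD) := by
        linarith
    _ ≤ (1 + KK + 3 * ((A.card : ℝ) * A.card)) * (ST + SD) := by
        nlinarith

end Pool.Agent.H635PF.JBND
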