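import Mathlib
import Pool.Agent.H635PF.Stm

set_option autoImplicit false

namespace Pool.Agent.H635PF.JCOC

open Pool.Agent.H635PF Matrix

/-- The wreath-type product of `R → A` and `R`. -/
@[ext] structure WR (A R : Type) where
  f : R → A
  r : R

variable {A R : Type}

instance [AddCommGroup A] [Group R] : Group (WR A R) where
  mul a b := ⟨fun w => a.f (b.r * w) + b.f w, a.r * b.r⟩
  one := ⟨0, 1⟩
  inv a := ⟨fun w => - a.f (a.r⁻¹ * w), a.r⁻¹⟩
  mul_assoc a b c := by
    refine WR.ext ?_ ?_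
    · funext w
      change (a.f (b.r * (c.r * w)) + b.f (c.r * w)) + c.f w =
        a.f ((b.r * c.r) * w) + (b.f (c.r * w) + c.f w)
      rw [mul_assoc, add_assoc]
    · exact mul_assoc _ _ _
  one_mul a := by
    refine WR.ext ?_ ?_
    · funext w
      change (0 : A) + a.f w = a.f w
      rw [zero_add]
    · exact one_mul _
  mul_one a := by
    refine WR.ext ?_ ?_
    · funext w
      change a.f (1 * w) + (0 : A) = a.f w
      rw [one_mul, add_zero]
    · exact mul_one _
  inv_mul_cancel a := by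
    refine WR.ext ?_ ?_
    · funext w
      change - a.f (a.r⁻¹ * (a.r * w)) + a.f w = 0
      rw [inv_mul_cancel_left, neg_add_cancel]
    · exact inv_mul_cancel _

theorem mul_f [AddCommGroup A] [Group R] (a b : WR A R) (w : R) :
    (a * b).f w = a.f (b.r * w) + b.f w := rfl

theorem mul_r [AddCommGroup A] [Group R] (a b : WR A R) : (a * b).r = a.r * b.r := rfl

/-- the projection to `R` -/
def pr (A R : Type) [AddCommGroup A] [Group R] : WR A R →* R where
  toFun a := a.r
  map_one' := rfl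
  map_mul' _ _ := rfl

/-- the underlying set -/
def eqv (A R : Type) : WR A R ≃ (R → A) × R where
  toFun a := (a.f, a.r)
  invFun a := ⟨a.1, a.2⟩
  left_inv _ := rfl
  right_inv _ := rfl

instance [Finite A] [Finite R] : Finite (WR A R) := Finite.of_equiv _ (eqv A R).symm

theorem isP (p : ℕ) [Fact p.Prime] (j : ℕ) [Group R] [Finite R] (hR : IsPGroup p R) :
    IsPGroup p (WR (ZMod (p ^ j)) R) := by
  have : NeZero (p ^ j) := ⟨pow_ne_zero _ (Fact.out : p.Prime).ne_zero⟩
  obtain ⟨n, hn⟩ := (IsPGroup.iff_card).1 hR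
  have hc : Nat.card (WR (ZMod (p ^ j)) R) = p ^ (j * Nat.card R + n) := by
    rw [Nat.card_congr (eqv (ZMod (p ^ j)) R), Nat.card_prod, Nat.card_fun, Nat.card_zmod, hn,
      ← pow_mul, ← pow_add]
  exact IsPGroup.of_card hc

theorem step (h1 : S_LIFT) (P X : Type) [Group P] (θ : FreeGroup X →* P) (hθ : IsPara θ)
    (p : ℕ) [Fact p.Prime] (R : Type) [Group R] [Finite R] (hR : IsPGroup p R) (φ : P →* R)
    (i : X) (r : R) (j : ℕ) : ∃ c : P → R → ZMod (p ^ j),
      (∀ g h w, c (g * h) w = c g (φ h * w) + c h w) ∧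
      c (θ (FreeGroup.of i)) r = 1 ∧
      ∀ (j : X) (s : R), (i, r) ≠ (j, s) → c (θ (FreeGroup.of j)) s = 0 := by
  classical
  have : NeZero (p ^ j) := ⟨pow_ne_zero _ (Fact.out : p.Prime).ne_zero⟩
  have : Group.IsNilpotent (WR (ZMod (p ^ j)) R) := (isP p j hR).isNilpotent
  have : Group.IsNilpotent R := hR.isNilpotent
  let u : FreeGroup X →* WR (ZMod (p ^ j)) R := FreeGroup.lift
    (fun k => ⟨if k = i then Pi.single r 1 else 0, φ (θ (FreeGroup.of k))⟩)
  obtain ⟨h', hh'⟩ := (h1 P X θ hθ (WR (ZMod (p ^ j)) R)).1 u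
  have hu : (pr (ZMod (p ^ j)) R).comp u = φ.comp θ := by
    refine FreeGroup.ext_hom _ _ (fun k => ?_)
    simp only [MonoidHom.comp_apply, u, FreeGroup.lift_apply_of]
    rfl
  have hsnd : (pr (ZMod (p ^ j)) R).comp h' = φ := by
    refine (h1 P X θ hθ R).2 _ _ (fun w => ?_)
    rw [MonoidHom.comp_apply, hh']
    exact DFunLike.congr_fun hu w
  have hr : ∀ g : P, (h' g).r = φ g := fun g => DFunLike.congr_fun hsnd g
  refine ⟨fun g w => (h' g).f w, ?_, ?_, ?_⟩
  · intro g h w
    change (h' (g * h)).f w = (h' g).f (φ h * w) + (h' h).f w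
    rw [map_mul, mul_f, hr]
  · change (h' (θ (FreeGroup.of i))).f r = 1
    rw [hh']
    simp only [u, FreeGroup.lift_apply_of]
    simp
  · intro k s hks
    change (h' (θ (FreeGroup.of k))).f s = 0
    rw [hh']
    simp only [u, FreeGroup.lift_apply_of]
    by_cases hk : k = i
    · have hs : s ≠ r := by
        rintro rfl
        exact hks (by rw [hk])
      rw [if_pos hk]
      exact Pi.single_eq_of_ne hs _
    · rw [if_neg hk]
      rfl

theorem t_COC (h1 : S_LIFT) (h2 : S_DIV) : S_COC := by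
  intro P X _ θ hθ p _ R _ _ hR φ i r
  obtain ⟨π, hπ⟩ := h2 p Fact.out
  choose c hc1 hc2 hc3 using step h1 P X θ hθ p R hR φ i r
  refine ⟨fun g w => π (fun j => c j g w), ?_, ?_, ?_⟩
  · intro g h w
    change π (fun j => c j (g * h) w) = π (fun j => c j g (φ h * w)) + π (fun j => c j h w)
    rw [← map_add]
    congr 1
    funext j
    exact hc1 j g h w
  · change π (fun j => c j (θ (FreeGroup.of i)) r) = 1
    rw [← hπ]
    congr 1
    funext j
    exact hc2 j
  · intro k s hks
    change π (fun j => c j (θ (FreeGroup.of k)) s) = 0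
    rw [← map_zero π]
    congr 1
    funext j
    exact hc3 j k s hks

end Pool.Agent.H635PF.JCOC
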