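import Mathlib
import Pool.Agent.H635PF.Stm

set_option autoImplicit false

namespace Pool.Agent.H635PF.JCORE

open Pool.Agent.H635PF Matrix

theorem t_CORE (h1 : S_STEP) (h2 : S_OPN) (h3 : S_LOC) (h4 : S_HP) (h5 : S_WORD) (h6 : S_BND) (h7 : S_PK) : S_CORE := by
  classical
  intro G _ N hN t e k M T E y f A hT hE hAN hAne hR
  -- the words
  have hconj : ∀ (i : Fin t) (x : Fin M), (E (f x))⁻¹ * T i * E (f x) ∈ N := by
    intro i x
    have h1 : T i ∈ N := by
      rw [← hT]
      exact Subgroup.subset_closure ⟨i, rfl⟩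
    have h2 := hN.conj_mem (T i) h1 (E (f x))⁻¹
    rwa [inv_inv] at h2
  have hword : ∀ (i : Fin t) (x : Fin M), ∃ L : List (ℝ × Fin t × G),
      (∀ s ∈ L, s.2.2 ∈ N) ∧
      ∀ (R : Type) [MulAction G R] (c : G → R → ℝ), IsCoc c →
        ∀ w, c ((E (f x))⁻¹ * T i * E (f x)) w = (L.map fun s => s.1 * c (T s.2.1) (s.2.2 • w)).sum := by
    intro i x
    obtain ⟨L, hL1, hL2⟩ := h5 G t T ((E (f x))⁻¹ * T i * E (f x)) (by rw [hT]; exact hconj i x)
    rw [hT] at hL1
    exact ⟨L, hL1, hL2⟩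
  choose Wd hWd1 hWd2 using hword
  have hspec : ∀ i, ∀ s ∈ spc T (E ∘ f) Wd i, s.2.2 ∈ N := by
    rintro ⟨i, x⟩ s hs
    simp only [spc, List.mem_cons, List.mem_map] at hs
    rcases hs with rfl | rfl | ⟨s', hs', rfl⟩
    · exact hconj i x
    · exact N.one_mem
    · exact hWd1 i x s' hs'
  obtain ⟨Λ, hΛ, hop⟩ := h2 G (Fin t × Fin M) (Fin t ⊕ Fin M) (spc T (E ∘ f) Wd)
  obtain ⟨C, hC, hbnd⟩ := h6 G N hN t e T E A hT hAN
  have hapos : 0 < A.card := hAne.card_pos
  have main : ∀ m : ℕ, (M : ℝ) * k * A.card ≤ (t + M) * A.card + M * e +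
      A.card * k * (2 * Λ * ((M + 1) * C)) / (2 * m + 1) := by
    intro m
    obtain ⟨B, hB, hloc⟩ := h3 G (Fin t × Fin M) (Fin t ⊕ Fin M) N (spc T (E ∘ f) Wd) hspec Λ m
    obtain ⟨B', hB'1, hHP⟩ := h4 G N t M (E ∘ f) (fun x x' hx => hE x x' hx) B hB
    obtain ⟨R, iF, iN, iM, hfree, c, hc⟩ := hR
      (B' ∪ ((A ×ˢ A).filter (fun p => p.1 ≠ p.2)).image (fun p => p.1⁻¹ * p.2)) (by
        intro b hb
        rcases Finset.mem_union.1 hb with hb | hb
        · exact hB'1 b hb
        · obtain ⟨p, hp, rfl⟩ := Finset.mem_image.1 hb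
          intro h
          exact (Finset.mem_filter.1 hp).2 (inv_mul_eq_one.1 h))
    letI : DecidableEq R := Classical.decEq R
    obtain ⟨Dd, hDd, hcov⟩ := h7 G R A hAne (by
      intro a ha a' ha' hne w hw
      have hmem : a⁻¹ * a' ∈ (B' ∪ ((A ×ˢ A).filter (fun p => p.1 ≠ p.2)).image
          (fun p => p.1⁻¹ * p.2)) := by
        apply Finset.mem_union_right
        apply Finset.mem_image.2
        exact ⟨(a, a'), Finset.mem_filter.2 ⟨Finset.mem_product.2 ⟨ha, ha'⟩, hne⟩, rfl⟩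
      apply hfree _ hmem w
      rw [mul_smul, ← hw, inv_smul_smul])
    have hstep := h1 G t e k M T E y f Wd R Dd Λ C m hΛ hC
      (fun c hc i x w => hWd2 i x R c hc w) (fun v => hop R v)
      (fun c hc => hbnd R Dd hcov c hc)
      (fun i => hHP R (Fin e × Dd) (fun b hb w => hfree b (Finset.mem_union_left _ hb) w)
        (PiM (opM (spc T (E ∘ f) Wd) R) Λ m) (hloc R) i)
      ⟨c, hc⟩
    have hr : (0 : ℝ) < Fintype.card R := by exact_mod_cast Fintype.card_pos
    have ha : (0 : ℝ) < A.card := by exact_mod_cast hapos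
    have hda : (Dd.card : ℝ) * A.card ≤ Fintype.card R := by exact_mod_cast hDd
    have hM : (0 : ℝ) ≤ M := Nat.cast_nonneg M
    have he : (0 : ℝ) ≤ e := Nat.cast_nonneg e
    have h8 : (M : ℝ) * (e * (Dd.card * A.card)) ≤ M * (e * Fintype.card R) :=
      mul_le_mul_of_nonneg_left (mul_le_mul_of_nonneg_left hda he) hM
    have h9 := mul_le_mul_of_nonneg_right hstep ha.le
    have h10 : (M : ℝ) * k * A.card * Fintype.card R ≤ ((t + M) * A.card + M * e +
      A.card * k * (2 * Λ * ((M + 1) * C)) / (2 * m + 1)) * Fintype.card R := by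
      have e1 : (k : ℝ) * Fintype.card R * (2 * Λ * ((M + 1) * C) / (2 * m + 1)) * A.card =
          A.card * k * (2 * Λ * ((M + 1) * C)) / (2 * m + 1) * Fintype.card R := by ring
      have e2 : ((t + M : ℝ) * Fintype.card R +
          k * Fintype.card R * (2 * Λ * ((M + 1) * C) / (2 * m + 1))) * A.card =
          (t + M) * Fintype.card R * A.card +
          A.card * k * (2 * Λ * ((M + 1) * C)) / (2 * m + 1) * Fintype.card R := by
        rw [add_mul, e1]
      rw [e2] at h9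
      nlinarith [h8, h9]
    exact le_of_mul_le_mul_right h10 hr
  by_contra hcon
  push Not at hcon
  have h11 : (t + M) * A.card + M * e + 1 ≤ M * k * A.card := hcon
  have h12 : ((t : ℝ) + M) * A.card + M * e + 1 ≤ M * k * A.card := by exact_mod_cast h11
  obtain ⟨m, hm⟩ := exists_nat_gt ((A.card : ℝ) * k * (2 * Λ * ((M + 1) * C)))
  have h13 := main m
  have hpos : (0 : ℝ) < 2 * m + 1 := by positivity
  have h14 : (A.card : ℝ) * k * (2 * Λ * ((M + 1) * C)) / (2 * m + 1) < 1 := by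
    rw [div_lt_one hpos]
    have : (0 : ℝ) ≤ m := Nat.cast_nonneg m
    linarith
  linarith

end Pool.Agent.H635PF.JCORE
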