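import Mathlib
import Pool.Agent.H635PF.Stm

set_option autoImplicit false

namespace Pool.Agent.H635PF.JDIV

open Pool.Agent.H635PF Matrix

theorem t_DIV : S_DIV := by
  intro p hp
  have hinj : Function.Injective (zmultiplesHom ((j : ℕ) → ZMod (p ^ j)) 1) := by
    rw [injective_iff_map_eq_zero]
    intro m hm
    have h1 : ∀ j : ℕ, ((p : ℤ) ^ j) ∣ m := by
      intro j
      have h2 := congrFun hm j
      simp only [zmultiplesHom_apply, Pi.smul_apply, Pi.one_apply, Pi.zero_apply, zsmul_eq_mul,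
        mul_one] at h2
      have h3 := (ZMod.intCast_zmod_eq_zero_iff_dvd m (p ^ j)).mp h2
      exact_mod_cast h3
    by_contra hne
    have h4 : m.natAbs ≠ 0 := by simpa using hne
    have h5 := h1 m.natAbs
    have h6 : p ^ m.natAbs ∣ m.natAbs := by
      have := Int.natAbs_dvd_natAbs.mpr h5
      simpa [Int.natAbs_pow] using this
    have h7 := Nat.le_of_dvd (Nat.pos_of_ne_zero h4) h6
    have h8 := Nat.lt_pow_self hp.one_lt (n := m.natAbs)
    omega
  have hB : Module.Baer ℤ ℝ := Module.Baer.of_divisible ℝ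
  obtain ⟨h, hh⟩ := hB.extension_property_addMonoidHom
    (zmultiplesHom ((j : ℕ) → ZMod (p ^ j)) 1) hinj (zmultiplesHom ℝ 1)
  refine ⟨h, ?_⟩
  have h9 := DFunLike.congr_fun hh (1 : ℤ)
  simpa using h9

end Pool.Agent.H635PF.JDIV
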