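import Mathlib
import Pool.Agent.H635PF.Stm

set_option autoImplicit false

namespace Pool.Agent.H635PF.JGS

open Pool.Agent.H635PF Matrix

theorem t_GS : S_GS := by
  intro σ S _ _ u hu
  classical
  obtain ⟨v, hv⟩ : ∃ v : S → EuclideanSpace ℝ σ, v = fun s => WithLp.toLp 2 (u s) := ⟨_, rfl⟩
  have hvu : ∀ s, WithLp.ofLp (v s) = u s := by
    intro s
    rw [hv]
  have hli : LinearIndependent ℝ v := by
    have h1 := hu.map' ((WithLp.linearEquiv 2 ℝ (σ → ℝ)).symm.toLinearMap)
      (LinearEquiv.ker _)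
    rw [hv]
    exact h1
  have hfr : Module.finrank ℝ (Submodule.span ℝ (Set.range v)) = Fintype.card S :=
    finrank_span_eq_card hli
  obtain ⟨W, hW⟩ : ∃ W : Submodule ℝ (EuclideanSpace ℝ σ), W = Submodule.span ℝ (Set.range v) :=
    ⟨_, rfl⟩
  rw [← hW] at hfr
  have b := stdOrthonormalBasis ℝ W
  have hmem : ∀ a : Fin (Fintype.card S), ∃ c : S → ℝ,
      ∑ s, c s • v s = (b (Fin.cast hfr.symm a) : EuclideanSpace ℝ σ) := by
    intro a
    have h1 : (b (Fin.cast hfr.symm a) : EuclideanSpace ℝ σ) ∈ Submodule.span ℝ (Set.range v) := by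
      rw [← hW]
      exact (b (Fin.cast hfr.symm a)).2
    exact (Submodule.mem_span_range_iff_exists_fun ℝ).mp h1
  choose lam hlam using hmem
  refine ⟨lam, ?_⟩
  have hof : ∀ a, ∑ s, lam a s • u s =
      WithLp.ofLp (b (Fin.cast hfr.symm a) : EuclideanSpace ℝ σ) := by
    intro a
    rw [← hlam a, WithLp.ofLp_sum]
    apply Finset.sum_congr rfl
    intro s _
    rw [WithLp.ofLp_smul, hvu]
  intro a c
  rw [hof a, hof c]
  have h2 := orthonormal_iff_ite.mp b.orthonormal (Fin.cast hfr.symm a) (Fin.cast hfr.symm c)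
  rw [Submodule.coe_inner, PiLp.inner_apply] at h2
  have h3 : (WithLp.ofLp (b (Fin.cast hfr.symm a) : EuclideanSpace ℝ σ)) ⬝ᵥ
      (WithLp.ofLp (b (Fin.cast hfr.symm c) : EuclideanSpace ℝ σ)) =
      ∑ i, inner ℝ ((b (Fin.cast hfr.symm a) : EuclideanSpace ℝ σ) i)
        ((b (Fin.cast hfr.symm c) : EuclideanSpace ℝ σ) i) := by
    unfold dotProduct
    apply Finset.sum_congr rfl
    intro i _
    rw [real_inner_eq_re_inner]
    simp [mul_comm]
  rw [h3, h2]
  by_cases hac : a = c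
  · rw [if_pos hac, if_pos (by rw [hac])]
  · rw [if_neg hac, if_neg]
    intro h4
    exact hac (Fin.cast_injective _ h4)

end Pool.Agent.H635PF.JGS

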