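import Mathlib
import Pool.Agent.H635PF.Stm

set_option autoImplicit false

namespace Pool.Agent.H635PF.JHP

open Pool.Agent.H635PF Matrix

theorem sq_sum {M : ℕ} (c : Fin M → ℝ) (h : ∀ x x', x ≠ x' → c x = 0 ∨ c x' = 0) :
    (∑ x, c x) * (∑ x, c x) = ∑ x, c x * c x := by
  rw [Finset.sum_mul_sum]
  refine Finset.sum_congr rfl fun x _ => ?_
  rw [Finset.sum_eq_single x]
  · intro x' _ hne
    rcases h x x' (Ne.symm hne) with h | h <;> simp [h]
  · simp

theorem t_HP : S_HP := by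
  classical
  intro G _ N t M Fx hFx B hB
  refine ⟨(((Finset.univ : Finset (Fin M × Fin M)).filter (fun z => z.1 ≠ z.2)) ×ˢ
    (B ×ˢ B)).image (fun z => Fx z.1.2 * z.2.2⁻¹ * z.2.1 * (Fx z.1.1)⁻¹), ?_, ?_⟩
  · intro b hb h1
    rw [Finset.mem_image] at hb
    obtain ⟨⟨⟨x, x'⟩, ⟨b1, b2⟩⟩, hz, hz2⟩ := hb
    simp only [Finset.mem_product, Finset.mem_filter, Finset.mem_univ, true_and] at hz
    obtain ⟨hne, h1b, h2b⟩ := hz
    simp only at hz2
    apply hFx x' x (Ne.symm hne)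
    have h3 : Fx x' * b2⁻¹ * b1 * (Fx x)⁻¹ = 1 := by rw [hz2, h1]
    have h4 : Fx x' * b2⁻¹ * b1 = Fx x := mul_inv_eq_one.mp h3
    have h5 : (Fx x')⁻¹ * Fx x = b2⁻¹ * b1 := by
      rw [← h4]; group
    rw [h5]
    exact N.mul_mem (N.inv_mem (hB _ h2b)) (hB _ h1b)
  · intro R σ₂ _ _ _ _ hfree X hX i
    have hy : ∀ p, (X *ᵥ Pi.single i 1) p ≠ 0 → ∃ b ∈ B, b • p.2 = i.2 := by
      intro p hp
      have h0 : (X *ᵥ Pi.single i 1) p = X p i := by simp
      rw [h0] at hp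
      obtain ⟨b, hb, h⟩ := hX p i hp
      exact ⟨b, by simpa using hb, h⟩
    generalize X *ᵥ Pi.single i 1 = y at hy
    have hJ : ∀ (a : Fin t) (w' : R), ((Jm t M Fx R σ₂)ᵀ *ᵥ y) (Sum.inl (a, w')) =
        ∑ x, y ((a, x), (Fx x)⁻¹ • w') := by
      intro a w'
      simp only [Matrix.mulVec, dotProduct, Matrix.transpose_apply, Jm, Sum.elim_inl]
      rw [Fintype.sum_prod_type, Fintype.sum_prod_type]
      rw [Finset.sum_eq_single a]
      · refine Finset.sum_congr rfl (fun x _ => ?_)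
        rw [Finset.sum_eq_single ((Fx x)⁻¹ • w')]
        · simp
        · intro w _ hw
          rw [if_neg, zero_mul]
          rintro ⟨_, h⟩
          apply hw
          simp only at h
          rw [← h, inv_smul_smul]
        · simp
      · intro b _ hb
        apply Finset.sum_eq_zero
        intro x _
        apply Finset.sum_eq_zero
        intro w _
        rw [if_neg, zero_mul]
        rintro ⟨h, _⟩
        exact hb h.symm
      · simp
    have hJ2 : ∀ s, ((Jm t M Fx R σ₂)ᵀ *ᵥ y) (Sum.inr s) = 0 := by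
      intro s
      simp [Matrix.mulVec, dotProduct, Jm]
    have key : ∀ (a : Fin t) (w' : R), (∑ x, y ((a, x), (Fx x)⁻¹ • w')) *
        (∑ x, y ((a, x), (Fx x)⁻¹ • w')) =
        ∑ x, y ((a, x), (Fx x)⁻¹ • w') * y ((a, x), (Fx x)⁻¹ • w') := by
      intro a w'
      apply sq_sum
      intro x x' hne
      by_contra hcon
      push Not at hcon
      obtain ⟨hx, hx'⟩ := hcon
      obtain ⟨b, hb, h⟩ := hy _ hx
      obtain ⟨b', hb', h'⟩ := hy _ hx'
      simp only at h h'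
      have hmem : Fx x' * b'⁻¹ * b * (Fx x)⁻¹ ∈
          (((Finset.univ : Finset (Fin M × Fin M)).filter (fun z => z.1 ≠ z.2)) ×ˢ
            (B ×ˢ B)).image (fun z => Fx z.1.2 * z.2.2⁻¹ * z.2.1 * (Fx z.1.1)⁻¹) := by
        rw [Finset.mem_image]
        refine ⟨((x, x'), (b, b')), ?_, rfl⟩
        simp only [Finset.mem_product, Finset.mem_filter, Finset.mem_univ, true_and]
        exact ⟨hne, hb, hb'⟩
      apply hfree _ hmem w'
      rw [mul_smul, mul_smul, mul_smul, h, ← h', inv_smul_smul, smul_inv_smul]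
    have e1 : ((Jm t M Fx R σ₂)ᵀ *ᵥ y) ⬝ᵥ ((Jm t M Fx R σ₂)ᵀ *ᵥ y) =
        ∑ a : Fin t, ∑ w' : R, ∑ x, y ((a, x), (Fx x)⁻¹ • w') * y ((a, x), (Fx x)⁻¹ • w') := by
      rw [dotProduct, Fintype.sum_sum_type]
      simp only [hJ2, mul_zero, Finset.sum_const_zero, add_zero]
      rw [Fintype.sum_prod_type]
      refine Finset.sum_congr rfl fun a _ => Finset.sum_congr rfl fun w' _ => ?_
      rw [hJ, key]
    have e2 : y ⬝ᵥ y = ∑ a : Fin t, ∑ x : Fin M, ∑ w : R, y ((a, x), w) * y ((a, x), w) := by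
      rw [dotProduct, Fintype.sum_prod_type, Fintype.sum_prod_type]
    rw [e1, e2]
    apply le_of_eq
    refine Finset.sum_congr rfl fun a _ => ?_
    rw [Finset.sum_comm]
    refine Finset.sum_congr rfl fun x _ => ?_
    exact Fintype.sum_equiv (MulAction.toPerm ((Fx x)⁻¹)) _ _ (fun w => rfl)

end Pool.Agent.H635PF.JHP
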