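import Mathlib
import Pool.Agent.H635PF.Stm

set_option autoImplicit false

namespace Pool.Agent.H635PF.JJV

open Pool.Agent.H635PF Matrix

theorem t_JV : S_JV := by
  intro G _ t M Fx R σ₂ _ _ _ _ z
  have h1 : ∀ (i : Fin t) (x : Fin M) (w : R),
      (Jm t M Fx R σ₂ *ᵥ z) ((i, x), w) = z (Sum.inl (i, Fx x • w)) := by
    intro i x w
    simp only [Matrix.mulVec, dotProduct, Jm, Fintype.sum_sum_type, Sum.elim_inl, Sum.elim_inr,
      zero_mul, Finset.sum_const_zero, add_zero]
    rw [Finset.sum_eq_single (i, Fx x • w)]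
    · simp
    · rintro ⟨j, u⟩ _ hne
      rw [if_neg, zero_mul]
      rintro ⟨h, h'⟩
      exact hne (Prod.ext h h'.symm)
    · intro h
      exact absurd (Finset.mem_univ _) h
  refine ⟨h1, ?_⟩
  rw [dotProduct, Fintype.sum_prod_type, Fintype.sum_prod_type]
  simp only [h1, ← pow_two]
  rw [Finset.mul_sum]
  refine Finset.sum_congr rfl fun i _ => ?_
  have h2 : ∀ x : Fin M, ∑ w : R, z (Sum.inl (i, Fx x • w)) ^ 2 = ∑ w : R, z (Sum.inl (i, w)) ^ 2 := by
    intro x
    exact Equiv.sum_comp (MulAction.toPerm (Fx x)) (fun w => z (Sum.inl (i, w)) ^ 2)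
  simp only [h2, Finset.sum_const, Finset.card_univ, Fintype.card_fin, nsmul_eq_mul]

end Pool.Agent.H635PF.JJV
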