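import Mathlib
import Pool.Agent.H635PF.Stm

set_option autoImplicit false

namespace Pool.Agent.H635PF.JLA

open Pool.Agent.H635PF Matrix

section aux

variable {ι κ σ : Type} [Fintype ι] [DecidableEq ι] [Fintype κ] [DecidableEq κ]
  [Fintype σ]

theorem self_nonneg (w : σ → ℝ) : 0 ≤ w ⬝ᵥ w := by
  simp only [dotProduct]
  exact Finset.sum_nonneg fun i _ => mul_self_nonneg _

theorem bess (d : ℕ) (z : Fin d → σ → ℝ) (hz : ∀ a b, z a ⬝ᵥ z b = if a = b then 1 else 0)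
    (u : σ → ℝ) : ∑ a, (z a ⬝ᵥ u) ^ 2 ≤ u ⬝ᵥ u := by
  have h1 : ∀ b, z b ⬝ᵥ (u - ∑ a, (z a ⬝ᵥ u) • z a) = 0 := by
    intro b
    rw [dotProduct_sub, dotProduct_sum]
    simp [dotProduct_smul, hz]
  have h2 : (u - ∑ a, (z a ⬝ᵥ u) • z a) ⬝ᵥ (u - ∑ a, (z a ⬝ᵥ u) • z a) =
      u ⬝ᵥ u - ∑ a, (z a ⬝ᵥ u) ^ 2 := by
    rw [sub_dotProduct, sum_dotProduct]
    have h3 : ∑ a, ((z a ⬝ᵥ u) • z a) ⬝ᵥ (u - ∑ a, (z a ⬝ᵥ u) • z a) = 0 := by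
      refine Finset.sum_eq_zero fun a _ => ?_
      rw [smul_dotProduct, h1, smul_zero]
    rw [h3, sub_zero, dotProduct_sub, dotProduct_sum]
    congr 1
    refine Finset.sum_congr rfl fun a _ => ?_
    rw [dotProduct_smul, smul_eq_mul, dotProduct_comm u (z a), sq]
  have h0 := self_nonneg (u - ∑ a, (z a ⬝ᵥ u) • z a)
  rw [h2] at h0
  linarith

theorem adj (A : Matrix ι κ ℝ) (x : κ → ℝ) (y : ι → ℝ) :
    (A *ᵥ x) ⬝ᵥ y = x ⬝ᵥ (Aᵀ *ᵥ y) := by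
  rw [dotProduct_comm, dotProduct_mulVec, ← mulVec_transpose, dotProduct_comm]

theorem comm1 (M : Matrix ι κ ℝ) (Λ : ℝ) (j : ℕ) :
    (1 - Λ⁻¹ • (M * Mᵀ)) ^ j * M = M * (1 - Λ⁻¹ • (Mᵀ * M)) ^ j := by
  induction j with
  | zero => simp
  | succ j ih =>
    rw [pow_succ, Matrix.mul_assoc]
    have h : (1 - Λ⁻¹ • (M * Mᵀ)) * M = M * (1 - Λ⁻¹ • (Mᵀ * M)) := by
      rw [Matrix.sub_mul, Matrix.mul_sub, Matrix.one_mul, Matrix.mul_one, Matrix.smul_mul,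
        Matrix.mul_smul, Matrix.mul_assoc]
    rw [h, ← Matrix.mul_assoc, ih, Matrix.mul_assoc, pow_succ]

theorem piM_eq (M : Matrix ι κ ℝ) (Λ : ℝ) (m : ℕ) :
    PiM M Λ m = M * (Λ⁻¹ • ∑ j ∈ Finset.range (2 * m), (1 - Λ⁻¹ • (Mᵀ * M)) ^ j) * Mᵀ := by
  have h := geom_sum_mul (1 - Λ⁻¹ • (M * Mᵀ)) (2 * m)
  have h2 : PiM M Λ m = (∑ i ∈ Finset.range (2 * m), (1 - Λ⁻¹ • (M * Mᵀ)) ^ i) *
      (Λ⁻¹ • (M * Mᵀ)) := by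
    unfold PiM
    have h3 : (1 - Λ⁻¹ • (M * Mᵀ) - 1) = - (Λ⁻¹ • (M * Mᵀ)) := by abel
    rw [h3, Matrix.mul_neg] at h
    rw [← neg_inj, h]
    abel
  rw [h2, Matrix.mul_smul, ← Matrix.mul_assoc, Matrix.sum_mul]
  rw [Finset.sum_congr rfl (fun j _ => comm1 M Λ j), ← Matrix.mul_sum, Matrix.mul_smul,
    Matrix.smul_mul]

theorem x_eq (M : Matrix ι κ ℝ) (Λ : ℝ) (m : ℕ) :
    (Λ⁻¹ • ∑ j ∈ Finset.range (2 * m), (1 - Λ⁻¹ • (Mᵀ * M)) ^ j) * (Mᵀ * M) =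
      1 - (1 - Λ⁻¹ • (Mᵀ * M)) ^ (2 * m) := by
  have h := geom_sum_mul (1 - Λ⁻¹ • (Mᵀ * M)) (2 * m)
  have h3 : (1 - Λ⁻¹ • (Mᵀ * M) - 1) = - (Λ⁻¹ • (Mᵀ * M)) := by abel
  rw [h3, Matrix.mul_neg] at h
  rw [Matrix.smul_mul, ← Matrix.mul_smul, ← neg_inj, h]
  abel

theorem b_symm (M : Matrix ι κ ℝ) (Λ : ℝ) : (Λ⁻¹ • (Mᵀ * M))ᵀ = Λ⁻¹ • (Mᵀ * M) := by
  rw [transpose_smul, transpose_mul, transpose_transpose]

theorem piM_symm (M : Matrix ι κ ℝ) (Λ : ℝ) (m : ℕ) : (PiM M Λ m)ᵀ = PiM M Λ m := by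
  unfold PiM
  rw [transpose_sub, transpose_one, transpose_pow, transpose_sub, transpose_one, transpose_smul,
    transpose_mul, transpose_transpose]

theorem fro (A : Matrix ι ι ℝ) (hA : Aᵀ = A) :
    ∑ i, (A *ᵥ Pi.single i 1) ⬝ᵥ (A *ᵥ Pi.single i 1) = trace (A * A) := by
  simp only [trace, diag]
  refine Finset.sum_congr rfl fun i _ => ?_
  rw [adj, hA, mulVec_mulVec, single_dotProduct, one_mul, mulVec_single_one]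
  rfl

theorem tr_eq (M : Matrix ι κ ℝ) (Λ : ℝ) (m : ℕ) :
    trace (PiM M Λ m * PiM M Λ m) =
      trace ((1 - (1 - Λ⁻¹ • (Mᵀ * M)) ^ (2 * m)) * (1 - (1 - Λ⁻¹ • (Mᵀ * M)) ^ (2 * m))) := by
  rw [← x_eq, piM_eq]
  set X := (Λ⁻¹ • ∑ j ∈ Finset.range (2 * m), (1 - Λ⁻¹ • (Mᵀ * M)) ^ j) with hX
  rw [show M * X * Mᵀ * (M * X * Mᵀ) = M * (X * Mᵀ * (M * X * Mᵀ)) by
    simp only [Matrix.mul_assoc]]
  rw [trace_mul_comm]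
  simp only [Matrix.mul_assoc]

end aux

theorem t_LA (h1 : S_PSD) : S_LA := by
  intro ι κ σ _ _ _ _ _ _ M Λ C hΛ hC hM J d z hz L hL hJ m hP
  set b : Matrix κ κ ℝ := Λ⁻¹ • (Mᵀ * M) with hb
  have hbq : ∀ v : κ → ℝ, v ⬝ᵥ (b *ᵥ v) = Λ⁻¹ * ((M *ᵥ v) ⬝ᵥ (M *ᵥ v)) := by
    intro v
    rw [adj, hb, smul_mulVec, dotProduct_smul, mulVec_mulVec, smul_eq_mul]
  obtain ⟨hA, hB⟩ := h1 κ b (b_symm M Λ)
    (fun v => by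
      rw [hbq]
      exact mul_nonneg (inv_nonneg.mpr hΛ.le) (self_nonneg _))
    (fun v => by
      rw [hbq]
      calc Λ⁻¹ * ((M *ᵥ v) ⬝ᵥ (M *ᵥ v)) ≤ Λ⁻¹ * (Λ * (v ⬝ᵥ v)) :=
            mul_le_mul_of_nonneg_left (hM v) (inv_nonneg.mpr hΛ.le)
        _ = v ⬝ᵥ v := by rw [← mul_assoc, inv_mul_cancel₀ hΛ.ne', one_mul])
  -- (1)
  have s1 : ∀ a, (J *ᵥ z a) ⬝ᵥ (J *ᵥ z a) ≤
      (PiM M Λ m *ᵥ (J *ᵥ z a)) ⬝ᵥ (PiM M Λ m *ᵥ (J *ᵥ z a)) + 2 * Λ * C / (2 * m + 1) := by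
    intro a
    set y := J *ᵥ z a with hy
    set Q := (1 - Λ⁻¹ • (M * Mᵀ)) ^ (2 * m) with hQ
    have e1 : PiM M Λ m *ᵥ y = y - Q *ᵥ y := by
      unfold PiM
      rw [sub_mulVec, one_mulVec]
    have e2 : y ⬝ᵥ (Q *ᵥ y) = Λ * (L a ⬝ᵥ ((b * (1 - b) ^ (2 * m)) *ᵥ L a)) := by
      rw [hy, hJ a, mulVec_mulVec, hQ, comm1, ← hb, adj, mulVec_mulVec, ← Matrix.mul_assoc]
      have : Mᵀ * M = Λ • b := by
        rw [hb, smul_smul, mul_inv_cancel₀ hΛ.ne', one_smul]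
      rw [this, Matrix.smul_mul, smul_mulVec, dotProduct_smul, smul_eq_mul]
    have e3 := hA (2 * m) (L a)
    have e4 : Λ * (L a ⬝ᵥ ((b * (1 - b) ^ (2 * m)) *ᵥ L a)) ≤ Λ * (C / (2 * m + 1)) := by
      refine mul_le_mul_of_nonneg_left (e3.trans ?_) hΛ.le
      push_cast
      have : (0 : ℝ) < 2 * m + 1 := by positivity
      exact div_le_div_of_nonneg_right (hL a) this.le
    rw [e1, sub_dotProduct, dotProduct_sub, dotProduct_sub, dotProduct_comm (Q *ᵥ y) y]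
    have e5 := self_nonneg (Q *ᵥ y)
    have e6 : 2 * Λ * C / (2 * m + 1) = 2 * (Λ * (C / (2 * m + 1))) := by ring
    rw [e2, e6]
    linarith
  -- (2)
  have s2 : ∑ a, (PiM M Λ m *ᵥ (J *ᵥ z a)) ⬝ᵥ (PiM M Λ m *ᵥ (J *ᵥ z a)) ≤
      ∑ i, (PiM M Λ m *ᵥ Pi.single i 1) ⬝ᵥ (PiM M Λ m *ᵥ Pi.single i 1) := by
    have e1 : ∀ a i, (PiM M Λ m *ᵥ (J *ᵥ z a)) i =
        z a ⬝ᵥ (Jᵀ *ᵥ (PiM M Λ m *ᵥ Pi.single i 1)) := by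
      intro a i
      rw [← adj, ← piM_symm, ← adj, dotProduct_single, mul_one, piM_symm]
    calc ∑ a, (PiM M Λ m *ᵥ (J *ᵥ z a)) ⬝ᵥ (PiM M Λ m *ᵥ (J *ᵥ z a))
        = ∑ a, ∑ i, (z a ⬝ᵥ (Jᵀ *ᵥ (PiM M Λ m *ᵥ Pi.single i 1))) ^ 2 := by
          refine Finset.sum_congr rfl fun a _ => ?_
          rw [dotProduct]
          refine Finset.sum_congr rfl fun i _ => ?_
          rw [e1, sq]
      _ = ∑ i, ∑ a, (z a ⬝ᵥ (Jᵀ *ᵥ (PiM M Λ m *ᵥ Pi.single i 1))) ^ 2 := Finset.sum_comm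
      _ ≤ ∑ i, (Jᵀ *ᵥ (PiM M Λ m *ᵥ Pi.single i 1)) ⬝ᵥ
            (Jᵀ *ᵥ (PiM M Λ m *ᵥ Pi.single i 1)) :=
          Finset.sum_le_sum fun i _ => bess d z hz _
      _ ≤ _ := Finset.sum_le_sum fun i _ => hP i
  -- (3)
  have s3 : ∑ i, (PiM M Λ m *ᵥ Pi.single i 1) ⬝ᵥ (PiM M Λ m *ᵥ Pi.single i 1) ≤
      (Fintype.card κ : ℝ) := by
    rw [fro _ (piM_symm M Λ m), tr_eq, ← hb]
    have hs : (1 - (1 - b) ^ (2 * m))ᵀ = 1 - (1 - b) ^ (2 * m) := by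
      rw [transpose_sub, transpose_one, transpose_pow, transpose_sub, transpose_one, hb, b_symm]
    rw [← fro _ hs]
    calc _ ≤ ∑ _i : κ, (1 : ℝ) := by
          refine Finset.sum_le_sum fun i _ => ?_
          refine (hB (2 * m) (Pi.single i 1)).trans ?_
          simp
      _ = (Fintype.card κ : ℝ) := by simp
  calc ∑ a, (J *ᵥ z a) ⬝ᵥ (J *ᵥ z a)
      ≤ ∑ a, ((PiM M Λ m *ᵥ (J *ᵥ z a)) ⬝ᵥ (PiM M Λ m *ᵥ (J *ᵥ z a)) +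
          2 * Λ * C / (2 * m + 1)) := Finset.sum_le_sum fun a _ => s1 a
    _ = ∑ a, (PiM M Λ m *ᵥ (J *ᵥ z a)) ⬝ᵥ (PiM M Λ m *ᵥ (J *ᵥ z a)) +
          d * (2 * Λ * C / (2 * m + 1)) := by
        rw [Finset.sum_add_distrib]
        simp
    _ ≤ _ := by
        have := s2.trans s3
        linarith

end Pool.Agent.H635PF.JLA
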