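import Mathlib
import Pool.Agent.H635PF.Stm

set_option autoImplicit false

namespace Pool.Agent.H635PF.JLIFT

open Pool.Agent.H635PF Matrix

theorem lcs_hom {G K : Type} [Group G] [Group K] (f : G →* K) (n : ℕ) {x : G}
    (hx : x ∈ lcs G n) : f x ∈ lcs K n := by
  have h1 : f x ∈ (lcs G n).map f := Subgroup.mem_map_of_mem f hx
  rw [Subgroup.map_lowerCentralSeries] at h1
  exact Subgroup.lowerCentralSeries_mono n le_top h1

theorem lcs_conj {G : Type} [Group G] (n : ℕ) {x : G} (hx : x ∈ lcs G n) (g : G) :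
    g * x * g⁻¹ ∈ lcs G n := by
  have : (lcs G n).Normal := by
    have h0 : (lcs G n).Characteristic := inferInstance
    infer_instance
  exact this.conj_mem x hx g

theorem t_LIFT : S_LIFT := by
  intro P X _ θ hθ H _ hnil
  obtain ⟨n, hn⟩ := Subgroup.nilpotent_iff_lowerCentralSeries.mp hnil
  have hn' : lcs H n = ⊥ := hn
  obtain ⟨h1, h2⟩ := hθ
  refine ⟨?_, ?_⟩
  · intro h
    choose w hw using h2 n
    have key : ∀ (g : P) (u : FreeGroup X), (θ u)⁻¹ * g ∈ lcs P n → h u = h (w g) := by
      intro g u hu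
      have e1 : (θ u)⁻¹ * θ (w g) ∈ lcs P n := by
        have e2 := (lcs P n).mul_mem hu ((lcs P n).inv_mem (hw g))
        have e3 : (θ u)⁻¹ * g * ((θ (w g))⁻¹ * g)⁻¹ = (θ u)⁻¹ * θ (w g) := by group
        rwa [e3] at e2
      have e4 : θ (u⁻¹ * w g) ∈ lcs P n := by
        rw [map_mul, map_inv]; exact e1
      have e5 := lcs_hom h n (h1 n _ e4)
      rw [hn', Subgroup.mem_bot, map_mul, map_inv, inv_mul_eq_one] at e5
      exact e5
    refine ⟨{ toFun := fun g => h (w g), map_one' := ?_, map_mul' := ?_ }, ?_⟩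
    · have := key 1 1 (by rw [map_one]; simpa using (lcs P n).one_mem)
      rw [← this, map_one]
    · intro a b
      have := key (a * b) (w a * w b) (by
        rw [map_mul]
        have e1 := lcs_conj n (hw a) b⁻¹
        have e2 := (lcs P n).mul_mem (hw b) e1
        have e3 : (θ (w b))⁻¹ * b * (b⁻¹ * ((θ (w a))⁻¹ * a) * (b⁻¹)⁻¹) =
            (θ (w a) * θ (w b))⁻¹ * (a * b) := by group
        rwa [e3] at e2)
      rw [← this, map_mul]
    · intro u
      have := key (θ u) u (by simpa using (lcs P n).one_mem)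
      exact this.symm
  · intro f1 f2 hf
    ext g
    obtain ⟨u, hu⟩ := h2 n g
    have k : ∀ f : P →* H, f g = f (θ u) := by
      intro f
      have e := lcs_hom f n hu
      rw [hn', Subgroup.mem_bot, map_mul, map_inv, inv_mul_eq_one] at e
      exact e.symm
    rw [k f1, k f2, hf u]

end Pool.Agent.H635PF.JLIFT
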