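import Mathlib
import Pool.Agent.H635PF.Stm

set_option autoImplicit false

namespace Pool.Agent.H635PF.JLOC

open Pool.Agent.H635PF Matrix

theorem loc_mul {G I J K R : Type} [Group G] [MulAction G R] [Fintype J] [Fintype R]
    {B B' : Set G} {X : Matrix (I × R) (J × R) ℝ} {Y : Matrix (J × R) (K × R) ℝ}
    (hX : Loc B X) (hY : Loc B' Y) : Loc (Set.image2 (fun b b' => b' * b) B B') (X * Y) := by
  intro p q h
  rw [Matrix.mul_apply] at h
  obtain ⟨l, -, hl⟩ := Finset.exists_ne_zero_of_sum_ne_zero h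
  obtain ⟨b, hb, hbe⟩ := hX p l (left_ne_zero_of_mul hl)
  obtain ⟨b', hb', hbe'⟩ := hY l q (right_ne_zero_of_mul hl)
  refine ⟨b' * b, ⟨b, hb, b', hb', rfl⟩, ?_⟩
  rw [mul_smul, hbe, hbe']

theorem loc_sub {G I J R : Type} [Group G] [MulAction G R] {B B' : Set G}
    {X Y : Matrix (I × R) (J × R) ℝ} (hX : Loc B X) (hY : Loc B' Y) :
    Loc (B ∪ B') (X - Y) := by
  intro p q h
  by_cases h1 : X p q = 0
  · have h2 : Y p q ≠ 0 := by
      intro h3
      apply h
      rw [Matrix.sub_apply, h1, h3, sub_zero]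
    obtain ⟨b, hb, hbe⟩ := hY p q h2
    exact ⟨b, Or.inr hb, hbe⟩
  · obtain ⟨b, hb, hbe⟩ := hX p q h1
    exact ⟨b, Or.inl hb, hbe⟩

theorem loc_smul {G I J R : Type} [Group G] [MulAction G R] {B : Set G}
    {X : Matrix (I × R) (J × R) ℝ} (c : ℝ) (hX : Loc B X) : Loc B (c • X) := by
  intro p q h
  apply hX p q
  intro h1
  apply h
  rw [Matrix.smul_apply, h1, smul_zero]

theorem loc_transpose {G I J R : Type} [Group G] [MulAction G R] {B : Set G}
    {X : Matrix (I × R) (J × R) ℝ} (hX : Loc B X) : Loc ((fun b => b⁻¹) '' B) Xᵀ := by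
  intro p q h
  obtain ⟨b, hb, hbe⟩ := hX q p h
  refine ⟨b⁻¹, ⟨b, hb, rfl⟩, ?_⟩
  rw [← hbe, inv_smul_smul]

theorem loc_one {G I R : Type} [Group G] [MulAction G R] [DecidableEq I] [DecidableEq R] :
    Loc (G := G) {1} (1 : Matrix (I × R) (I × R) ℝ) := by
  intro p q h
  have h1 : p = q := by
    by_contra hne
    exact h (Matrix.one_apply_ne hne)
  exact ⟨1, rfl, by rw [one_smul, h1]⟩

theorem loc_opM {G I J R : Type} [Group G] [DecidableEq J] [DecidableEq R] [MulAction G R]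
    (spec : I → List (ℝ × J × G)) (B : Set G) (hB : ∀ i, ∀ s ∈ spec i, s.2.2 ∈ B) :
    Loc B (opM spec R) := by
  intro p q h
  have h1 : ∃ s ∈ spec p.1, s.2.1 = q.1 ∧ s.2.2 • p.2 = q.2 := by
    by_contra hcon
    push Not at hcon
    apply h
    unfold opM
    apply List.sum_eq_zero
    intro x hx
    obtain ⟨s, hs, rfl⟩ := List.mem_map.1 hx
    rw [if_neg]
    rintro ⟨h2, h3⟩
    exact hcon s hs h2 h3
  obtain ⟨s, hs, -, h3⟩ := h1
  exact ⟨s.2.2, hB _ s hs, h3⟩

theorem t_LOC : S_LOC := by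
  intro G I J _ _ _ _ _ N spec hN Λ m
  classical
  -- the support of the operator itself
  obtain ⟨B₀, hB₀, hloc₀⟩ : ∃ B : Finset G, (∀ b ∈ B, b ∈ N) ∧
      ∀ (R : Type) [Fintype R] [DecidableEq R] [MulAction G R],
        Loc (B : Set G) (1 - Λ⁻¹ • (opM spec R * (opM spec R)ᵀ)) := by
    set A : Finset G := Finset.univ.biUnion fun i => ((spec i).map fun s => s.2.2).toFinset with hA
    have hmem : ∀ i, ∀ s ∈ spec i, s.2.2 ∈ A := by
      intro i s hs
      rw [hA, Finset.mem_biUnion]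
      exact ⟨i, Finset.mem_univ _, List.mem_toFinset.2 (List.mem_map.2 ⟨s, hs, rfl⟩)⟩
    have hAN : ∀ b ∈ A, b ∈ N := by
      intro b hb
      rw [hA, Finset.mem_biUnion] at hb
      obtain ⟨i, -, hi⟩ := hb
      obtain ⟨s, hs, rfl⟩ := List.mem_map.1 (List.mem_toFinset.1 hi)
      exact hN i s hs
    refine ⟨{1} ∪ Finset.image₂ (fun b b' => b' * b) A (A.image fun b => b⁻¹), ?_, ?_⟩
    · intro b hb
      rcases Finset.mem_union.1 hb with h1 | h1
      · rw [Finset.mem_singleton.1 h1]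
        exact N.one_mem
      · obtain ⟨x, hx, y, hy, rfl⟩ := Finset.mem_image₂.1 h1
        obtain ⟨z, hz, rfl⟩ := Finset.mem_image.1 hy
        exact N.mul_mem (N.inv_mem (hAN z hz)) (hAN x hx)
    · intro R _ _ _
      have h1 : Loc (A : Set G) (opM spec R) := loc_opM spec _ fun i s hs => hmem i s hs
      have h2 := loc_sub (loc_one (G := G) (I := I) (R := R))
        (loc_smul Λ⁻¹ (loc_mul h1 (loc_transpose h1)))
      rw [Finset.coe_union, Finset.coe_singleton, Finset.coe_image₂, Finset.coe_image]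
      exact h2
  have hpow : ∀ n : ℕ, ∃ B : Finset G, (∀ b ∈ B, b ∈ N) ∧
      ∀ (R : Type) [Fintype R] [DecidableEq R] [MulAction G R],
        Loc (B : Set G) ((1 - Λ⁻¹ • (opM spec R * (opM spec R)ᵀ)) ^ n) := by
    intro n
    induction n with
    | zero =>
      refine ⟨{1}, ?_, ?_⟩
      · intro b hb
        rw [Finset.mem_singleton.1 hb]
        exact N.one_mem
      · intro R _ _ _
        rw [pow_zero, Finset.coe_singleton]
        exact loc_one
    | succ n ih =>
      obtain ⟨B, hB, hloc⟩ := ih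
      refine ⟨Finset.image₂ (fun b b' => b' * b) B B₀, ?_, ?_⟩
      · intro b hb
        obtain ⟨x, hx, y, hy, rfl⟩ := Finset.mem_image₂.1 hb
        exact N.mul_mem (hB₀ y hy) (hB x hx)
      · intro R _ _ _
        rw [pow_succ, Finset.coe_image₂]
        exact loc_mul (hloc R) (hloc₀ R)
  obtain ⟨B, hB, hloc⟩ := hpow (2 * m)
  refine ⟨{1} ∪ B, ?_, ?_⟩
  · intro b hb
    rcases Finset.mem_union.1 hb with h1 | h1
    · rw [Finset.mem_singleton.1 h1]
      exact N.one_mem
    · exact hB b h1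
  · intro R _ _ _
    rw [Finset.coe_union, Finset.coe_singleton]
    exact loc_sub loc_one (hloc R)

end Pool.Agent.H635PF.JLOC
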