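import Mathlib
import Pool.Agent.H635PF.Stm

set_option autoImplicit false

namespace Pool.Agent.H635PF.JOPN

open Pool.Agent.H635PF Matrix

theorem opv {G I J R : Type} [Group G] [Fintype J] [DecidableEq J] [Fintype R]
    [DecidableEq R] [MulAction G R] (spec : I → List (ℝ × J × G)) (v : J × R → ℝ) (i : I) (w : R) :
    (opM spec R *ᵥ v) (i, w) = ((spec i).map fun s => s.1 * v (s.2.1, s.2.2 • w)).sum := by
  have key : ∀ l : List (ℝ × J × G),
      ∑ q : J × R, (l.map fun s => if s.2.1 = q.1 ∧ s.2.2 • w = q.2 then s.1 else 0).sum * v q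
        = (l.map fun s => s.1 * v (s.2.1, s.2.2 • w)).sum := by
    intro l
    induction l with
    | nil => simp
    | cons a l ih =>
      simp only [List.map_cons, List.sum_cons, add_mul, Finset.sum_add_distrib]
      rw [ih]
      congr 1
      rw [Finset.sum_eq_single (a.2.1, a.2.2 • w)]
      · simp
      · intro q _ hq
        rw [if_neg, zero_mul]
        rintro ⟨h1, h2⟩
        exact hq (Prod.ext h1.symm h2.symm)
      · intro h
        exact absurd (Finset.mem_univ _) h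
  have := key (spec i)
  simpa [Matrix.mulVec, dotProduct, opM] using this

theorem bound_one {J R : Type} [Fintype J] [Fintype R] (v : J × R → ℝ) (j : J) :
    ∑ w : R, v (j, w) ^ 2 ≤ v ⬝ᵥ v := by
  have h1 : v ⬝ᵥ v = ∑ j : J, ∑ w : R, v (j, w) ^ 2 := by
    rw [dotProduct, Fintype.sum_prod_type]
    refine Finset.sum_congr rfl fun j _ => Finset.sum_congr rfl fun w _ => ?_
    ring
  rw [h1]
  exact Finset.single_le_sum (f := fun j : J => ∑ w : R, v (j, w) ^ 2)
    (fun j _ => Finset.sum_nonneg fun w _ => sq_nonneg _) (Finset.mem_univ j)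

theorem bound_list {G J : Type} [Group G] [Fintype J] (l : List (ℝ × J × G)) :
    ∃ K : ℝ, 0 ≤ K ∧ ∀ (R : Type) [Fintype R] [MulAction G R] (v : J × R → ℝ),
      ∑ w : R, ((l.map fun s => s.1 * v (s.2.1, s.2.2 • w)).sum) ^ 2 ≤ K * (v ⬝ᵥ v) := by
  induction l with
  | nil => exact ⟨0, le_refl _, fun R _ _ v => by simp⟩
  | cons a l ih =>
    obtain ⟨K, hK, hb⟩ := ih
    refine ⟨2 * a.1 ^ 2 + 2 * K, by positivity, fun R _ _ v => ?_⟩
    have h1 := hb R v
    have h2 : ∑ w : R, (a.1 * v (a.2.1, a.2.2 • w)) ^ 2 ≤ a.1 ^ 2 * (v ⬝ᵥ v) := by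
      have h3 : ∑ w : R, (a.1 * v (a.2.1, a.2.2 • w)) ^ 2
          = a.1 ^ 2 * ∑ w : R, v (a.2.1, w) ^ 2 := by
        rw [Finset.mul_sum]
        rw [← Equiv.sum_comp (MulAction.toPerm a.2.2) (fun w => a.1 ^ 2 * v (a.2.1, w) ^ 2)]
        refine Finset.sum_congr rfl fun w _ => ?_
        simp only [MulAction.toPerm_apply]
        ring
      rw [h3]
      exact mul_le_mul_of_nonneg_left (bound_one v a.2.1) (sq_nonneg _)
    have h4 : ∑ w : R, (((a :: l).map fun s => s.1 * v (s.2.1, s.2.2 • w)).sum) ^ 2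
        ≤ ∑ w : R, (2 * (a.1 * v (a.2.1, a.2.2 • w)) ^ 2
          + 2 * ((l.map fun s => s.1 * v (s.2.1, s.2.2 • w)).sum) ^ 2) := by
      refine Finset.sum_le_sum fun w _ => ?_
      simp only [List.map_cons, List.sum_cons]
      nlinarith [sq_nonneg (a.1 * v (a.2.1, a.2.2 • w)
        - (l.map fun s => s.1 * v (s.2.1, s.2.2 • w)).sum)]
    refine h4.trans ?_
    rw [Finset.sum_add_distrib, ← Finset.mul_sum, ← Finset.mul_sum]
    nlinarith

theorem t_OPN : S_OPN := by
  intro G I J _ _ _ _ spec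
  choose K hK hb using fun i : I => bound_list (spec i)
  refine ⟨(∑ i, K i) + 1, by
    have := Finset.sum_nonneg fun (i : I) (_ : i ∈ Finset.univ) => hK i
    linarith, ?_⟩
  intro R _ _ _ v
  have h0 : 0 ≤ v ⬝ᵥ v := by
    rw [dotProduct]
    exact Finset.sum_nonneg fun q _ => mul_self_nonneg _
  have h1 : (opM spec R *ᵥ v) ⬝ᵥ (opM spec R *ᵥ v)
      = ∑ i : I, ∑ w : R, (((spec i).map fun s => s.1 * v (s.2.1, s.2.2 • w)).sum) ^ 2 := by
    rw [dotProduct, Fintype.sum_prod_type]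
    refine Finset.sum_congr rfl fun i _ => Finset.sum_congr rfl fun w _ => ?_
    rw [opv]
    ring
  rw [h1]
  calc ∑ i : I, ∑ w : R, (((spec i).map fun s => s.1 * v (s.2.1, s.2.2 • w)).sum) ^ 2
      ≤ ∑ i : I, K i * (v ⬝ᵥ v) := Finset.sum_le_sum fun i _ => hb i R v
    _ = (∑ i : I, K i) * (v ⬝ᵥ v) := by rw [Finset.sum_mul]
    _ ≤ ((∑ i : I, K i) + 1) * (v ⬝ᵥ v) := by nlinarith

end Pool.Agent.H635PF.JOPN
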