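import Mathlib
import Pool.Agent.H635PF.Stm

set_option autoImplicit false

namespace Pool.Agent.H635PF.JOPV

open Pool.Agent.H635PF Matrix

theorem t_OPV : S_OPV := by
  intro G I J R _ _ _ _ _ _ spec v i w
  simp only [Matrix.mulVec, dotProduct, opM]
  induction spec i with
  | nil => simp
  | cons s l ih =>
    simp only [List.map_cons, List.sum_cons, add_mul, Finset.sum_add_distrib, ih]
    congr 1
    rw [Finset.sum_eq_single (s.2.1, s.2.2 • w)]
    · simp
    · rintro ⟨j, r⟩ _ hq
      rw [if_neg, zero_mul]
      rintro ⟨h1, h2⟩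
      exact hq (Prod.ext h1.symm h2.symm)
    · intro h
      exact absurd (Finset.mem_univ _) h

end Pool.Agent.H635PF.JOPV
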