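import Mathlib
import Pool.Agent.H635PF.Stm

set_option autoImplicit false

namespace Pool.Agent.H635PF.JPK

open Pool.Agent.H635PF Matrix

theorem t_PK : S_PK := by
  classical
  intro G _ R _ _ A hA hfree
  let P : Finset R → Prop := fun D => ∀ d ∈ D, ∀ d' ∈ D, d ≠ d' →
    Disjoint (A.image (fun a => a • d)) (A.image (fun a => a • d'))
  obtain ⟨Dd, hD, hmax⟩ := Finset.exists_max_image
    ((Finset.univ : Finset (Finset R)).filter P) Finset.card
    ⟨∅, by simp [P]⟩
  have hP : P Dd := (Finset.mem_filter.1 hD).2
  refine ⟨Dd, ?_, ?_⟩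
  · have h1 : (Dd.biUnion (fun d => A.image (fun a => a • d))).card = Dd.card * A.card := by
      rw [Finset.card_biUnion (fun d hd d' hd' hne => hP d hd d' hd' hne)]
      have h2 : ∀ d ∈ Dd, (A.image (fun a => a • d)).card = A.card := by
        intro d _
        apply Finset.card_image_of_injOn
        intro a ha a' ha' h
        by_contra hne
        exact hfree a ha a' ha' hne d h
      rw [Finset.sum_congr rfl h2, Finset.sum_const, smul_eq_mul]
    rw [← h1]
    exact Finset.card_le_univ _
  · intro w
    by_contra hcon
    push Not at hcon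
    have hw : w ∉ Dd := by
      intro hw
      obtain ⟨a, ha⟩ := hA
      exact hcon w hw a ha a ha rfl
    have hdis : ∀ d ∈ Dd, Disjoint (A.image (fun a => a • w)) (A.image (fun a => a • d)) := by
      intro d hd
      rw [Finset.disjoint_left]
      intro x hx hx'
      obtain ⟨a, ha, rfl⟩ := Finset.mem_image.1 hx
      obtain ⟨a', ha', h⟩ := Finset.mem_image.1 hx'
      exact hcon d hd a ha a' ha' h.symm
    have hP' : P (insert w Dd) := by
      intro d hd d' hd' hne
      rcases Finset.mem_insert.1 hd with h1 | h1
      · rcases Finset.mem_insert.1 hd' with h2 | h2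
        · exact absurd (h1.trans h2.symm) hne
        · rw [h1]; exact hdis d' h2
      · rcases Finset.mem_insert.1 hd' with h2 | h2
        · rw [h2]; exact (hdis d h1).symm
        · exact hP d h1 d' h2 hne
    have h3 := hmax (insert w Dd) (Finset.mem_filter.2 ⟨Finset.mem_univ _, hP'⟩)
    rw [Finset.card_insert_of_notMem hw] at h3
    omega

end Pool.Agent.H635PF.JPK
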