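import Mathlib
import Pool.Agent.H635PF.Stm

set_option autoImplicit false

namespace Pool.Agent.H635PF.JPSD

open Pool.Agent.H635PF Matrix

variable {κ : Type} [Fintype κ] [DecidableEq κ]

omit [DecidableEq κ] in
theorem sym_dot (A : Matrix κ κ ℝ) (hA : Aᵀ = A) (x y : κ → ℝ) :
    (A *ᵥ x) ⬝ᵥ y = x ⬝ᵥ (A *ᵥ y) := by
  rw [Matrix.dotProduct_mulVec, ← Matrix.mulVec_transpose, hA]

theorem conj_dot (C D : Matrix κ κ ℝ) (hC : Cᵀ = C) (v : κ → ℝ) :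
    v ⬝ᵥ ((C * D * C) *ᵥ v) = (C *ᵥ v) ⬝ᵥ (D *ᵥ (C *ᵥ v)) := by
  rw [sym_dot C hC, Matrix.mulVec_mulVec, Matrix.mulVec_mulVec, Matrix.mul_assoc]

theorem psd_conj (C D : Matrix κ κ ℝ) (hC : Cᵀ = C) (hD : ∀ v : κ → ℝ, 0 ≤ v ⬝ᵥ (D *ᵥ v))
    (v : κ → ℝ) : 0 ≤ v ⬝ᵥ ((C * D * C) *ᵥ v) := by
  rw [conj_dot C D hC]
  exact hD _

omit [DecidableEq κ] in
theorem sq_nonneg_dot (v : κ → ℝ) : 0 ≤ v ⬝ᵥ v := by
  rw [dotProduct]
  exact Finset.sum_nonneg fun i _ => mul_self_nonneg _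

theorem t_PSD : S_PSD := by
  intro κ _ _ b hb h0 h1
  obtain ⟨c, hc⟩ : ∃ c, c = 1 - b := ⟨_, rfl⟩
  rw [← hc]
  have hbc1 : b + c = 1 := by rw [hc]; abel
  have hcT : cᵀ = c := by rw [hc, transpose_sub, transpose_one, hb]
  have hcomm : b * c = c * b := by
    rw [hc, mul_sub, sub_mul, mul_one, one_mul]
  have hcpT : ∀ k : ℕ, (c ^ k)ᵀ = c ^ k := fun k => by rw [transpose_pow, hcT]
  have pc0 : ∀ v : κ → ℝ, 0 ≤ v ⬝ᵥ (c *ᵥ v) := by
    intro v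
    rw [hc, Matrix.sub_mulVec, Matrix.one_mulVec, dotProduct_sub]
    have := h1 v
    linarith
  have pone : ∀ v : κ → ℝ, 0 ≤ v ⬝ᵥ ((1 : Matrix κ κ ℝ) *ᵥ v) := by
    intro v
    rw [Matrix.one_mulVec]
    exact sq_nonneg_dot v
  have pbc : ∀ v : κ → ℝ, 0 ≤ v ⬝ᵥ ((b * c) *ᵥ v) := by
    intro v
    have e : b * c = b * c * b + c * b * c := by
      calc b * c = b * c * (b + c) := by rw [hbc1, mul_one]
        _ = b * c * b + c * b * c := by rw [mul_add, ← hcomm]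
    rw [e, Matrix.add_mulVec, dotProduct_add]
    exact add_nonneg (psd_conj b c hb pc0 v) (psd_conj c b hcT h0 v)
  have hcomm' : ∀ k : ℕ, c ^ k * b = b * c ^ k := by
    intro k
    have : Commute b c := hcomm
    exact ((this.pow_right k).eq).symm
  have pc : ∀ (k : ℕ) (v : κ → ℝ), 0 ≤ v ⬝ᵥ ((c ^ k) *ᵥ v) := by
    intro k v
    obtain ⟨l, hl | hl⟩ := Nat.even_or_odd' k
    · have e : c ^ k = c ^ l * 1 * c ^ l := by rw [mul_one, ← pow_add, hl, two_mul]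
      rw [e]
      exact psd_conj _ _ (hcpT l) pone v
    · have e : c ^ k = c ^ l * c * c ^ l := by
        rw [← pow_succ, ← pow_add, hl]
        congr 1
        ring
      rw [e]
      exact psd_conj _ _ (hcpT l) pc0 v
  have pcb : ∀ (k : ℕ) (v : κ → ℝ), 0 ≤ v ⬝ᵥ ((b * c ^ k) *ᵥ v) := by
    intro k v
    obtain ⟨l, hl | hl⟩ := Nat.even_or_odd' k
    · have e : b * c ^ k = c ^ l * b * c ^ l := by
        rw [hcomm', mul_assoc, ← pow_add, hl, two_mul]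
      rw [e]
      exact psd_conj _ _ (hcpT l) h0 v
    · have e : b * c ^ k = c ^ l * (b * c) * c ^ l := by
        rw [← mul_assoc, hcomm', mul_assoc, mul_assoc, ← pow_succ', ← pow_add, hl]
        congr 2
        ring
      rw [e]
      exact psd_conj _ _ (hcpT l) pbc v
  have stepC : ∀ (k : ℕ) (v : κ → ℝ), v ⬝ᵥ ((c ^ (k + 1)) *ᵥ v) ≤ v ⬝ᵥ ((c ^ k) *ᵥ v) := by
    intro k v
    have e : c ^ k = c ^ (k + 1) + b * c ^ k := by
      rw [pow_succ']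
      calc c ^ k = (b + c) * c ^ k := by rw [hbc1, one_mul]
        _ = c * c ^ k + b * c ^ k := by rw [add_mul, add_comm]
    have h := pcb k v
    have h2 : v ⬝ᵥ ((c ^ k) *ᵥ v) = v ⬝ᵥ ((c ^ (k + 1)) *ᵥ v) + v ⬝ᵥ ((b * c ^ k) *ᵥ v) := by
      rw [← dotProduct_add, ← Matrix.add_mulVec, ← e]
    linarith
  have antiC : ∀ v : κ → ℝ, Antitone fun k : ℕ => v ⬝ᵥ ((c ^ k) *ᵥ v) :=
    fun v => antitone_nat_of_succ_le fun k => stepC k v
  have stepB : ∀ (k : ℕ) (v : κ → ℝ),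
      v ⬝ᵥ ((b * c ^ (k + 1)) *ᵥ v) ≤ v ⬝ᵥ ((b * c ^ k) *ᵥ v) := by
    intro k v
    have e : b * c ^ k = b * c ^ (k + 1) + b * c ^ k * b := by
      calc b * c ^ k = b * c ^ k * (c + b) := by rw [add_comm, hbc1, mul_one]
        _ = b * c ^ (k + 1) + b * c ^ k * b := by rw [mul_add, mul_assoc, ← pow_succ]
    have h := psd_conj b (c ^ k) hb (pc k) v
    have h2 : v ⬝ᵥ ((b * c ^ k) *ᵥ v) =
        v ⬝ᵥ ((b * c ^ (k + 1)) *ᵥ v) + v ⬝ᵥ ((b * c ^ k * b) *ᵥ v) := by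
      rw [← dotProduct_add, ← Matrix.add_mulVec, ← e]
    linarith
  have antiB : ∀ v : κ → ℝ, Antitone fun k : ℕ => v ⬝ᵥ ((b * c ^ k) *ᵥ v) :=
    fun v => antitone_nat_of_succ_le fun k => stepB k v
  have tele : ∀ (n : ℕ) (v : κ → ℝ), ∑ j ∈ Finset.range n, v ⬝ᵥ ((b * c ^ j) *ᵥ v) =
      v ⬝ᵥ v - v ⬝ᵥ ((c ^ n) *ᵥ v) := by
    intro n v
    induction n with
    | zero => simp
    | succ n ih =>
      have e : c ^ n = c ^ (n + 1) + b * c ^ n := by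
        rw [pow_succ']
        calc c ^ n = (b + c) * c ^ n := by rw [hbc1, one_mul]
          _ = c * c ^ n + b * c ^ n := by rw [add_mul, add_comm]
      have h2 : v ⬝ᵥ ((c ^ n) *ᵥ v) =
          v ⬝ᵥ ((c ^ (n + 1)) *ᵥ v) + v ⬝ᵥ ((b * c ^ n) *ᵥ v) := by
        rw [← dotProduct_add, ← Matrix.add_mulVec, ← e]
      rw [Finset.sum_range_succ, ih]
      linarith
  constructor
  · intro n v
    rw [le_div_iff₀ (by positivity)]
    have h2 := tele (n + 1) v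
    have h3 := pc (n + 1) v
    have h4 : ∑ _j ∈ Finset.range (n + 1), v ⬝ᵥ ((b * c ^ n) *ᵥ v) ≤
        ∑ j ∈ Finset.range (n + 1), v ⬝ᵥ ((b * c ^ j) *ᵥ v) := by
      apply Finset.sum_le_sum
      intro j hj
      exact antiB v (Nat.le_of_lt_succ (Finset.mem_range.1 hj))
    rw [Finset.sum_const, Finset.card_range, nsmul_eq_mul] at h4
    push_cast at h4
    linarith
  · intro n v
    have hP : (1 - c ^ n)ᵀ = 1 - c ^ n := by rw [transpose_sub, transpose_one, hcpT]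
    rw [sym_dot _ hP, Matrix.mulVec_mulVec]
    have e : (1 - c ^ n) * (1 - c ^ n) = 1 - c ^ n - c ^ n + c ^ (n + n) := by
      rw [mul_sub, mul_one, sub_mul, one_mul, ← pow_add]
      abel
    rw [e, Matrix.add_mulVec, Matrix.sub_mulVec, Matrix.sub_mulVec, Matrix.one_mulVec,
      dotProduct_add, dotProduct_sub, dotProduct_sub]
    have h5 := antiC v (Nat.le_add_right n n)
    have h6 := pc n v
    simp only at h5
    linarith

end Pool.Agent.H635PF.JPSD
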