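import Mathlib
import Pool.Agent.H635PF.Stm

set_option autoImplicit false

namespace Pool.Agent.H635PF.JREL

open Pool.Agent.H635PF Matrix

theorem t_REL (h1 : S_OPV) : S_REL := by
  intro G _ t M T Fx Wd R _ _ _ c hc hW i x w
  rw [h1 G (Fin t × Fin M) (Fin t ⊕ Fin M) R (spc T Fx Wd) (vc T Fx c) (i, x) w]
  have h2 : ((spc T Fx Wd (i, x)).map
      fun s => s.1 * (vc T Fx c) (s.2.1, s.2.2 • w)).sum =
      c (Fx x) (((Fx x)⁻¹ * T i * Fx x) • w) - c (Fx x) w +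
        ((Wd i x).map fun s => s.1 * c (T s.2.1) (s.2.2 • w)).sum := by
    unfold spc
    rw [List.map_cons, List.sum_cons, List.map_cons, List.sum_cons, List.map_map]
    have h3 : ((fun s : ℝ × (Fin t ⊕ Fin M) × G => s.1 * (vc T Fx c) (s.2.1, s.2.2 • w)) ∘
        fun s : ℝ × Fin t × G => ((s.1, Sum.inl s.2.1, s.2.2) : ℝ × (Fin t ⊕ Fin M) × G)) =
        fun s => s.1 * c (T s.2.1) (s.2.2 • w) := rfl
    rw [h3]
    have h4 : vc T Fx c ((Sum.inr x : Fin t ⊕ Fin M), ((Fx x)⁻¹ * T i * Fx x) • w) =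
        c (Fx x) (((Fx x)⁻¹ * T i * Fx x) • w) := rfl
    have h5 : vc T Fx c ((Sum.inr x : Fin t ⊕ Fin M), (1 : G) • w) = c (Fx x) w := by
      rw [one_smul]
      rfl
    simp only [h4, h5]
    ring
  rw [h2, ← hW i x w]
  have h6 := hc (T i) (Fx x) w
  have h7 := hc (Fx x) ((Fx x)⁻¹ * T i * Fx x) w
  have h8 : Fx x * ((Fx x)⁻¹ * T i * Fx x) = T i * Fx x := by group
  rw [h8, h6] at h7
  linarith

end Pool.Agent.H635PF.JREL
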