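import Mathlib
import Pool.Agent.H635PF.Stm

set_option autoImplicit false

namespace Pool.Agent.H635PF.JRF

open Pool.Agent.H635PF Matrix

theorem lcs_hom {G K : Type} [Group G] [Group K] (f : G →* K) (n : ℕ) {x : G} (hx : x ∈ lcs G n) :
    f x ∈ lcs K n := by
  have h1 : f x ∈ (lcs G n).map f := Subgroup.mem_map_of_mem f hx
  rw [Subgroup.map_lowerCentralSeries] at h1
  exact Subgroup.lowerCentralSeries_mono n le_top h1

open Classical in
/-- One element, any set of letters. -/
theorem one (h1 : S_RF1) (X : Type) (p : ℕ) [Fact p.Prime] (n : ℕ) (w : FreeGroup X)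
    (hw : w ∉ lcs (FreeGroup X) n) : ∃ (H : Type) (_ : Group H) (_ : Finite H)
    (h : FreeGroup X →* H), IsPGroup p H ∧ lcs H n = ⊥ ∧ h w ≠ 1 := by
  set S : Finset X := (w.toWord.map Prod.fst).toFinset with hS
  set rho : FreeGroup X →* FreeGroup (Fin S.card) :=
    FreeGroup.lift (fun x => if h : x ∈ S then FreeGroup.of (S.equivFin ⟨x, h⟩) else 1) with hrho
  set iota : FreeGroup (Fin S.card) →* FreeGroup X :=
    FreeGroup.lift (fun i => FreeGroup.of ((S.equivFin.symm i : S) : X)) with hiota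
  have hfix : ∀ x ∈ S, iota (rho (FreeGroup.of x)) = FreeGroup.of x := by
    intro x hx
    rw [hrho, FreeGroup.lift_apply_of, dif_pos hx, hiota, FreeGroup.lift_apply_of,
      Equiv.symm_apply_apply]
  have hcomp : iota.comp rho = FreeGroup.lift (fun x => iota (rho (FreeGroup.of x))) := by
    apply FreeGroup.ext_hom
    intro x
    rw [FreeGroup.lift_apply_of]
    rfl
  have hid : iota (rho w) = w := by
    have e1 : iota (rho w) = (iota.comp rho) w := rfl
    rw [e1, hcomp]
    have e2 : w = FreeGroup.mk w.toWord := FreeGroup.mk_toWord.symm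
    have e3 : FreeGroup.lift (FreeGroup.of (α := X)) w = w := by
      have e4 : FreeGroup.lift (FreeGroup.of (α := X)) = MonoidHom.id _ := by
        apply FreeGroup.ext_hom
        intro x
        rw [FreeGroup.lift_apply_of]
        rfl
      rw [e4]
      rfl
    conv_rhs => rw [← e3]
    rw [e2, FreeGroup.lift_mk, FreeGroup.lift_mk]
    congr 1
    apply List.map_congr_left
    rintro ⟨x, b⟩ hx
    have hxS : x ∈ S := by
      rw [hS, List.mem_toFinset]
      exact List.mem_map_of_mem (f := Prod.fst) hx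
    simp only [hfix x hxS]
  have hrw : rho w ∉ lcs (FreeGroup (Fin S.card)) n := by
    intro h
    apply hw
    have := lcs_hom iota n h
    rwa [hid] at this
  obtain ⟨H, gH, fH, h, hp, hl, hne⟩ := h1 S.card p n (rho w) hrw
  exact ⟨H, gH, fH, h.comp rho, hp, hl, hne⟩

theorem t_RF (h1 : S_RF1) : S_RF := by
  intro X p hp n W hW
  have key : ∀ w : {w // w ∈ W}, ∃ (H : Type) (_ : Group H) (_ : Finite H)
      (h : FreeGroup X →* H), IsPGroup p H ∧ lcs H n = ⊥ ∧ h w.1 ≠ 1 :=
    fun w => one h1 X p n w.1 (hW w.1 w.2)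
  choose H gH fH h hpg hl hne using key
  refine ⟨∀ w : {w // w ∈ W}, H w, inferInstance, inferInstance, MonoidHom.pi h, ?_, ?_, ?_⟩
  · intro g
    choose k hk using fun w => hpg w (g w)
    refine ⟨∑ w, k w, ?_⟩
    funext w
    have hle : k w ≤ ∑ w, k w := Finset.single_le_sum (fun _ _ => Nat.zero_le _) (Finset.mem_univ w)
    obtain ⟨c, hc⟩ := Nat.exists_eq_add_of_le hle
    rw [Pi.pow_apply, hc, pow_add, pow_mul, hk, one_pow, Pi.one_apply]
  · rw [eq_bot_iff]
    intro x hx
    rw [Subgroup.mem_bot]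
    funext w
    have h2 := lcs_hom (Pi.evalMonoidHom H w) n hx
    rw [hl w, Subgroup.mem_bot] at h2
    exact h2
  · intro w hw h0
    exact hne ⟨w, hw⟩ (congrFun h0 ⟨w, hw⟩)

end Pool.Agent.H635PF.JRF
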