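import Mathlib
import Pool.Agent.H635PF.Stm

set_option autoImplicit false

namespace Pool.Agent.H635PF.JRP

open Pool.Agent.H635PF Matrix

theorem lcs_map_mem {G K : Type} [Group G] [Group K] (f : G →* K) (n : ℕ) (g : G)
    (hg : g ∈ lcs G n) : f g ∈ lcs K n := by
  have h1 : f g ∈ ((⊤ : Subgroup G).lowerCentralSeries n).map f := Subgroup.mem_map_of_mem f hg
  rw [Subgroup.map_lowerCentralSeries] at h1
  exact Subgroup.lowerCentralSeries_mono n le_top h1

theorem t_RP (h1 : S_LIFT) (h2 : S_RF) : S_RP := by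
  classical
  intro P X _ θ hθ hres p _ B hB
  -- one `n` works for all `b ∈ B`
  have hn : ∃ n : ℕ, ∀ b ∈ B, b ∉ lcs P n := by
    induction B using Finset.induction_on with
    | empty => exact ⟨0, by simp⟩
    | insert b B _ ih =>
      obtain ⟨n, hn⟩ := ih fun c hc => hB c (Finset.mem_insert_of_mem hc)
      have hb : b ≠ 1 := hB b (Finset.mem_insert_self b B)
      have hm : ∃ m : ℕ, b ∉ lcs P m := by
        by_contra hcon
        push Not at hcon
        apply hb
        have : b ∈ (⨅ n : ℕ, (⊤ : Subgroup P).lowerCentralSeries n) := by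
          rw [Subgroup.mem_iInf]
          exact hcon
        rw [hres] at this
        exact Subgroup.mem_bot.mp this
      obtain ⟨m, hm⟩ := hm
      refine ⟨max n m, ?_⟩
      intro c hc hc'
      rcases Finset.mem_insert.mp hc with rfl | hc
      · exact hm (Subgroup.lowerCentralSeries_antitone _ (le_max_right n m) hc')
      · exact hn c hc (Subgroup.lowerCentralSeries_antitone _ (le_max_left n m) hc')
  obtain ⟨n, hn⟩ := hn
  choose w hw using fun g : P => hθ.2 n g
  have hW : ∀ v ∈ B.image w, v ∉ lcs (FreeGroup X) n := by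
    intro v hv hv'
    obtain ⟨b, hb, rfl⟩ := Finset.mem_image.mp hv
    have h3 : θ (w b) ∈ lcs P n := lcs_map_mem θ n _ hv'
    have h4 : θ (w b) * ((θ (w b))⁻¹ * b) ∈ lcs P n := mul_mem h3 (hw b)
    rw [mul_inv_cancel_left] at h4
    exact hn b hb h4
  obtain ⟨H, hH, hfin, h, hp, hlcs, hne⟩ := h2 X p n (B.image w) hW
  have : Group.IsNilpotent H := Subgroup.nilpotent_iff_lowerCentralSeries.mpr ⟨n, hlcs⟩
  obtain ⟨h', hh'⟩ := (h1 P X θ hθ H).1 h
  refine ⟨H, hH, hfin, h', hp, ?_⟩
  intro b hb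
  have h5 : h' ((θ (w b))⁻¹ * b) = 1 := by
    have := lcs_map_mem h' n _ (hw b)
    rw [hlcs] at this
    exact Subgroup.mem_bot.mp this
  have h6 : h' b = h (w b) := by
    rw [map_mul, map_inv, hh'] at h5
    exact (inv_mul_eq_one.mp h5).symm
  rw [h6]
  exact hne _ (Finset.mem_image_of_mem w hb)

end Pool.Agent.H635PF.JRP
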