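import Mathlib
import Pool.Agent.H635PF.Stm

set_option autoImplicit false

namespace Pool.Agent.H635PF.JTHETA

open Pool.Agent.H635PF Matrix
open scoped commutatorElement

theorem quot_lcs_bot {G : Type} [Group G] (n : ℕ) : lcs (G ⧸ lcs G n) n = ⊥ := by
  rw [eq_bot_iff]
  have h := Subgroup.map_lowerCentralSeries (⊤ : Subgroup G)
    (QuotientGroup.mk' ((⊤ : Subgroup G).lowerCentralSeries n)) n
  rw [Subgroup.map_top_of_surjective _ (QuotientGroup.mk'_surjective _)] at h
  show (⊤ : Subgroup (G ⧸ lcs G n)).lowerCentralSeries n ≤ ⊥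
  rw [← h]
  rintro _ ⟨x, hx, rfl⟩
  rw [Subgroup.mem_bot]
  exact (QuotientGroup.eq_one_iff x).mpr hx

theorem quot_nilp {G : Type} [Group G] (n : ℕ) : Group.IsNilpotent (G ⧸ lcs G n) := by
  rw [Subgroup.nilpotent_iff_lowerCentralSeries]
  exact ⟨n, quot_lcs_bot n⟩

theorem map_lcs_le {G H : Type} [Group G] [Group H] (f : G →* H) (n : ℕ) (x : G)
    (hx : x ∈ lcs G n) : f x ∈ lcs H n := by
  have h1 : f x ∈ ((⊤ : Subgroup G).lowerCentralSeries n).map f := ⟨x, hx, rfl⟩
  rw [Subgroup.map_lowerCentralSeries] at h1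
  exact Subgroup.lowerCentralSeries_mono n (le_top : (⊤ : Subgroup G).map f ≤ ⊤) h1

theorem map_comm_le {G H : Type} [Group G] [Group H] (f : G →* H) (x : G)
    (hx : x ∈ commutator G) : f x ∈ commutator H := by
  rw [← Subgroup.top_lowerCentralSeries_one] at hx ⊢
  exact map_lcs_le f 1 x hx

/-- In a nilpotent group a subgroup that is everything modulo the commutator subgroup is
everything. -/
theorem top_of_sup_commutator (G : Type) [Group G] [hG : Group.IsNilpotent G] :
    ∀ S : Subgroup G, (∀ g : G, ∃ s ∈ S, s⁻¹ * g ∈ commutator G) → S = ⊤ := by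
  refine Group.nilpotent_center_quotient_ind
    (P := fun G _ _ => ∀ S : Subgroup G, (∀ g : G, ∃ s ∈ S, s⁻¹ * g ∈ commutator G) → S = ⊤)
    G ?_ ?_
  · intro G _ _ S _
    exact Subsingleton.elim _ _
  · intro G _ _ ih S hS
    have h1 : S.map (QuotientGroup.mk' (Subgroup.center G)) = ⊤ := by
      apply ih
      intro g
      obtain ⟨g, rfl⟩ := QuotientGroup.mk'_surjective _ g
      obtain ⟨s, hs, hc⟩ := hS g
      refine ⟨QuotientGroup.mk' _ s, ⟨s, hs, rfl⟩, ?_⟩
      have h2 : (QuotientGroup.mk' (Subgroup.center G)) (s⁻¹ * g) ∈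
          (commutator G).map (QuotientGroup.mk' (Subgroup.center G)) := ⟨_, hc, rfl⟩
      rw [map_commutator_eq] at h2
      rw [map_mul, map_inv] at h2
      rw [commutator_def]
      exact Subgroup.commutator_mono le_top le_top h2
    have h2 : ∀ g : G, ∃ s ∈ S, ∃ z ∈ Subgroup.center G, g = s * z := by
      intro g
      have h3 : (QuotientGroup.mk' (Subgroup.center G)) g ∈
          S.map (QuotientGroup.mk' (Subgroup.center G)) := by rw [h1]; trivial
      obtain ⟨s, hs, h4⟩ := h3
      refine ⟨s, hs, s⁻¹ * g, ?_, by group⟩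
      exact QuotientGroup.eq.mp h4
    have h3 : commutator G ≤ S := by
      rw [commutator_def, Subgroup.commutator_le]
      intro a _ b _
      obtain ⟨s, hs, z, hz, rfl⟩ := h2 a
      obtain ⟨t, ht, y, hy, rfl⟩ := h2 b
      have hz' := Subgroup.mem_center_iff.mp hz
      have hy' := Subgroup.mem_center_iff.mp hy
      have e : ⁅s * z, t * y⁆ = ⁅s, t⁆ := by
        rw [commutatorElement_def, commutatorElement_def]
        have e1 : s * z * (t * y) = s * t * (z * y) := by
          rw [mul_assoc, ← mul_assoc z t y, ← hz' t]; group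
        have e2 : (s * z)⁻¹ = s⁻¹ * z⁻¹ := by
          rw [_root_.mul_inv_rev]
          have := hz' s
          rw [← _root_.mul_inv_rev, ← _root_.mul_inv_rev, this]
        have e3 : z * y * s⁻¹ * z⁻¹ = s⁻¹ * y := by
          have h5 := hz' (y * s⁻¹)
          calc z * y * s⁻¹ * z⁻¹ = z * (y * s⁻¹) * z⁻¹ := by group
            _ = y * s⁻¹ := by rw [← h5]; group
            _ = s⁻¹ * y := (hy' s⁻¹).symm
        calc s * z * (t * y) * (s * z)⁻¹ * (t * y)⁻¹
            = s * t * (z * y * s⁻¹ * z⁻¹) * (t * y)⁻¹ := by rw [e1, e2]; group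
          _ = s * t * s⁻¹ * t⁻¹ := by
            rw [e3, _root_.mul_inv_rev]
            group
      rw [e]
      rw [commutatorElement_def]
      exact S.mul_mem (S.mul_mem (S.mul_mem hs ht) (S.inv_mem hs)) (S.inv_mem ht)
    rw [eq_top_iff]
    intro g _
    obtain ⟨s, hs, hc⟩ := hS g
    have := S.mul_mem hs (h3 hc)
    rwa [mul_inv_cancel_left] at this

theorem gen_all (P X : Type) [Group P] (θ : FreeGroup X →* P)
    (h : ∀ g : P, ∃ w : FreeGroup X, (θ w)⁻¹ * g ∈ lcs P 1) (n : ℕ) (g : P) :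
    ∃ w : FreeGroup X, (θ w)⁻¹ * g ∈ lcs P n := by
  have := quot_nilp (G := P) n
  have h1 := top_of_sup_commutator (P ⧸ lcs P n)
    (θ.range.map (QuotientGroup.mk' (lcs P n))) (by
      intro g
      obtain ⟨g, rfl⟩ := QuotientGroup.mk'_surjective _ g
      obtain ⟨w, hw⟩ := h g
      refine ⟨QuotientGroup.mk' _ (θ w), ⟨θ w, ⟨w, rfl⟩, rfl⟩, ?_⟩
      rw [← map_inv, ← map_mul]
      apply map_comm_le
      rwa [← Subgroup.top_lowerCentralSeries_one])
  have h2 : (QuotientGroup.mk' (lcs P n)) g ∈ θ.range.map (QuotientGroup.mk' (lcs P n)) := by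
    rw [h1]; trivial
  obtain ⟨_, ⟨w, rfl⟩, h3⟩ := h2
  exact ⟨w, QuotientGroup.eq.mp h3⟩

theorem of_mk_comm {G : Type} [Group G] (n : ℕ) (g : G)
    (h : (QuotientGroup.mk' (lcs G (n + 1))) g ∈ commutator (G ⧸ lcs G (n + 1))) :
    g ∈ lcs G 1 := by
  have h1 : (commutator G).map (QuotientGroup.mk' (lcs G (n + 1))) =
      commutator (G ⧸ lcs G (n + 1)) := by
    rw [map_commutator_eq, commutator_def, MonoidHom.range_eq_top.mpr
      (QuotientGroup.mk'_surjective _)]
  rw [← h1] at h
  obtain ⟨c, hc, h2⟩ := h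
  have h3 : c⁻¹ * g ∈ lcs G (n + 1) := QuotientGroup.eq.mp h2
  have h4 : c⁻¹ * g ∈ lcs G 1 :=
    Subgroup.lowerCentralSeries_antitone _ (by omega : 1 ≤ n + 1) h3
  have h5 : c ∈ lcs G 1 := by
    show c ∈ (⊤ : Subgroup G).lowerCentralSeries 1
    rw [Subgroup.top_lowerCentralSeries_one]; exact hc
  have h6 := (lcs G 1).mul_mem h5 h4
  rwa [mul_inv_cancel_left] at h6

theorem t_THETA (h1 : S_UNI) : S_THETA := by
  intro P X _ hψ
  have ψ := fun n => (hψ n).some
  let θ : FreeGroup X →* P :=
    FreeGroup.lift fun x => ((ψ 1).symm (QuotientGroup.mk (FreeGroup.of x))).out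
  have hθ : ∀ w : FreeGroup X, (QuotientGroup.mk (θ w) : P ⧸ lcs P 1) =
      (ψ 1).symm (QuotientGroup.mk w) := by
    have : (QuotientGroup.mk' (lcs P 1)).comp θ =
        (ψ 1).symm.toMonoidHom.comp (QuotientGroup.mk' (lcs (FreeGroup X) 1)) := by
      apply FreeGroup.ext_hom
      intro x
      show QuotientGroup.mk (θ (FreeGroup.of x)) = (ψ 1).symm (QuotientGroup.mk (FreeGroup.of x))
      simp only [θ, FreeGroup.lift_apply_of]
      exact QuotientGroup.out_eq' _
    intro w
    exact DFunLike.congr_fun this w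
  have hsur : ∀ g : P, ∃ w : FreeGroup X, (θ w)⁻¹ * g ∈ lcs P 1 := by
    intro g
    obtain ⟨w, hw⟩ := QuotientGroup.mk_surjective (ψ 1 (QuotientGroup.mk g))
    refine ⟨w, ?_⟩
    rw [← QuotientGroup.eq, hθ w, hw, MulEquiv.symm_apply_apply]
  have hgen := gen_all P X θ hsur
  refine ⟨θ, ?_, hgen⟩
  intro n w hw
  cases n with
  | zero => trivial
  | succ n =>
    -- the endomorphism of the free nilpotent group
    let H := FreeGroup X ⧸ lcs (FreeGroup X) (n + 1)
    let α : FreeGroup X →* H :=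
      (ψ (n + 1)).toMonoidHom.comp ((QuotientGroup.mk' (lcs P (n + 1))).comp θ)
    have hkill : ∀ f : FreeGroup X →* H, ∀ w ∈ lcs (FreeGroup X) (n + 1), f w = 1 := by
      intro f w hw
      have := map_lcs_le f (n + 1) w hw
      have hb : lcs H (n + 1) = ⊥ := quot_lcs_bot (G := FreeGroup X) (n + 1)
      rw [hb] at this
      exact Subgroup.mem_bot.mp this
    let α' : H →* H := QuotientGroup.lift _ α (hkill α)
    have hα' : ∀ w : FreeGroup X, α' (QuotientGroup.mk w) = ψ (n + 1) (QuotientGroup.mk (θ w)) :=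
      fun w => rfl
    have hinj : ∀ h : H, α' h ∈ commutator H → h ∈ commutator H := by
      intro h hh
      obtain ⟨w, rfl⟩ := QuotientGroup.mk_surjective h
      rw [hα'] at hh
      have h2 := map_comm_le (ψ (n + 1)).symm.toMonoidHom _ hh
      have h3 : (ψ (n + 1)).symm.toMonoidHom (ψ (n + 1) (QuotientGroup.mk (θ w))) =
          QuotientGroup.mk (θ w) := (ψ (n + 1)).symm_apply_apply _
      rw [h3] at h2
      have h4 := of_mk_comm n (θ w) h2
      have h5 : (QuotientGroup.mk (θ w) : P ⧸ lcs P 1) = 1 := (QuotientGroup.eq_one_iff _).mpr h4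
      rw [hθ w] at h5
      have h6 : (QuotientGroup.mk w : FreeGroup X ⧸ lcs (FreeGroup X) 1) = 1 := by
        have := congrArg (ψ 1) h5
        rwa [MulEquiv.apply_symm_apply, map_one] at this
      have h7 : w ∈ lcs (FreeGroup X) 1 := (QuotientGroup.eq_one_iff _).mp h6
      have h8 : w ∈ commutator (FreeGroup X) := by
        rw [← Subgroup.top_lowerCentralSeries_one]; exact h7
      exact map_comm_le (QuotientGroup.mk' (lcs (FreeGroup X) (n + 1))) w h8
    have hsurj : ∀ h : H, ∃ u : H, (α' u)⁻¹ * h ∈ commutator H := by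
      intro h
      obtain ⟨g, hg⟩ := QuotientGroup.mk_surjective ((ψ (n + 1)).symm h)
      obtain ⟨w, hw⟩ := hsur g
      refine ⟨QuotientGroup.mk w, ?_⟩
      have h2 : (α' (QuotientGroup.mk w))⁻¹ * h =
          ((ψ (n + 1)).toMonoidHom.comp (QuotientGroup.mk' (lcs P (n + 1)))) ((θ w)⁻¹ * g) := by
        rw [hα', map_mul, map_inv]
        show _ = (ψ (n + 1) (QuotientGroup.mk (θ w)))⁻¹ * ψ (n + 1) (QuotientGroup.mk g)
        rw [hg, MulEquiv.apply_symm_apply]
      rw [h2]
      apply map_comm_le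
      rw [← Subgroup.top_lowerCentralSeries_one]
      exact hw
    choose u hu using hsurj
    let β : FreeGroup X →* H := FreeGroup.lift fun x => u (QuotientGroup.mk (FreeGroup.of x))
    let β' : H →* H := QuotientGroup.lift _ β (hkill β)
    have hβ : ∀ h : H, (α' (β' h))⁻¹ * h ∈ commutator H := by
      have : (QuotientGroup.mk' (commutator H)).comp
          ((α'.comp β').comp (QuotientGroup.mk' (lcs (FreeGroup X) (n + 1)))) =
          (QuotientGroup.mk' (commutator H)).comp
            (QuotientGroup.mk' (lcs (FreeGroup X) (n + 1))) := by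
        apply FreeGroup.ext_hom
        intro x
        show QuotientGroup.mk (α' (β (FreeGroup.of x))) =
          QuotientGroup.mk (QuotientGroup.mk (FreeGroup.of x))
        rw [QuotientGroup.eq]
        simp only [β, FreeGroup.lift_apply_of]
        exact hu _
      intro h
      obtain ⟨w, rfl⟩ := QuotientGroup.mk_surjective h
      exact QuotientGroup.eq.mp (DFunLike.congr_fun this w)
    have hid : ∀ h : H, h⁻¹ * (β'.comp α') h ∈ commutator H := by
      intro h
      apply hinj
      rw [map_mul, map_inv]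
      have h2 := hβ (α' h)
      have h3 := (commutator H).inv_mem h2
      rw [_root_.mul_inv_rev, inv_inv] at h3
      exact h3
    have hI := h1 H (n + 1) (quot_lcs_bot (G := FreeGroup X) (n + 1)) (β'.comp α') hid
    have h9 : (QuotientGroup.mk (θ w) : P ⧸ lcs P (n + 1)) = 1 :=
      (QuotientGroup.eq_one_iff _).mpr hw
    have h10 : (QuotientGroup.mk w : H) = 1 := by
      apply hI
      show β' (α' (QuotientGroup.mk w)) = β' (α' 1)
      rw [hα', h9]
      exact congrArg β' ((map_one (ψ (n + 1))).trans (map_one α').symm)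
    exact (QuotientGroup.eq_one_iff _).mp h10

end Pool.Agent.H635PF.JTHETA
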