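import Mathlib
import Pool.Agent.H635PF.Stm

set_option autoImplicit false

namespace Pool.Agent.H635PF.JUNI

open Pool.Agent.H635PF Matrix
open scoped commutatorElement

theorem quot_facts (H : Type) [Group H] (i : ℕ) :
    ⁅⁅(lcs H i).map (QuotientGroup.mk' (lcs H (i + 2))), (⊤ : Subgroup (H ⧸ lcs H (i + 2)))⁆,
      (⊤ : Subgroup (H ⧸ lcs H (i + 2)))⁆ = ⊥ := by
  have htop : (⊤ : Subgroup H).map (QuotientGroup.mk' (lcs H (i + 2))) = ⊤ :=
    Subgroup.map_top_of_surjective _ (QuotientGroup.mk'_surjective _)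
  have h : (lcs H (i + 2)).map (QuotientGroup.mk' (lcs H (i + 2))) = ⊥ := by
    rw [Subgroup.map_eq_bot_iff, QuotientGroup.ker_mk']
  have h1 : lcs H (i + 2) = ⁅⁅lcs H i, (⊤ : Subgroup H)⁆, (⊤ : Subgroup H)⁆ := rfl
  have h2 : (⁅⁅lcs H i, (⊤ : Subgroup H)⁆, (⊤ : Subgroup H)⁆).map
      (QuotientGroup.mk' (lcs H (i + 2))) = ⊥ := h
  rw [Subgroup.map_commutator, Subgroup.map_commutator, htop] at h2
  exact h2

theorem step (H : Type) [Group H] (ε : H →* H) (h0 : ∀ x, x⁻¹ * ε x ∈ commutator H) (i : ℕ) :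
    ∀ x ∈ lcs H i, x⁻¹ * ε x ∈ lcs H (i + 1) := by
  induction i with
  | zero => intro x _; exact h0 x
  | succ i ih =>
    set N := lcs H (i + 2) with hN
    set π := QuotientGroup.mk' N with hπ
    have hq := quot_facts H i
    have hq2 : ⁅⁅(⊤ : Subgroup (H ⧸ N)), (⊤ : Subgroup (H ⧸ N))⁆, (lcs H i).map π⁆ = ⊥ := by
      apply Subgroup.commutator_commutator_eq_bot_of_rotate
      · rw [Subgroup.commutator_comm (⊤ : Subgroup (H ⧸ N))]
        exact hq
      · exact hq
    have hle : lcs H (i + 1) ≤ (π.comp ε).eqLocus π := by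
      have h1 : lcs H (i + 1) = ⁅lcs H i, (⊤ : Subgroup H)⁆ := rfl
      rw [h1, Subgroup.commutator_le]
      intro y hy z _
      show π (ε ⁅y, z⁆) = π ⁅y, z⁆
      rw [map_commutatorElement, map_commutatorElement, map_commutatorElement]
      set a := π (y⁻¹ * ε y) with ha
      set b := π (z⁻¹ * ε z) with hb
      have e1 : π (ε y) = π y * a := by rw [ha, ← map_mul]; congr 1; group
      have e2 : π (ε z) = π z * b := by rw [hb, ← map_mul]; congr 1; group
      -- `a` is central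
      have hac : ∀ u : H ⧸ N, a * u = u * a := by
        intro u
        have h2 : a ∈ ⁅(lcs H i).map π, (⊤ : Subgroup (H ⧸ N))⁆ := by
          have h3 : a ∈ (lcs H (i + 1)).map π := Subgroup.mem_map_of_mem π (ih y hy)
          have h4 : (lcs H (i + 1)).map π = ⁅(lcs H i).map π, (⊤ : Subgroup (H ⧸ N))⁆ := by
            have htop : (⊤ : Subgroup H).map π = ⊤ :=
              Subgroup.map_top_of_surjective _ (QuotientGroup.mk'_surjective _)
            rw [h1, Subgroup.map_commutator, htop]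
          rwa [h4] at h3
        have h5 : ⁅a, u⁆ ∈ ⁅⁅(lcs H i).map π, (⊤ : Subgroup (H ⧸ N))⁆, (⊤ : Subgroup (H ⧸ N))⁆ :=
          Subgroup.commutator_mem_commutator h2 (Subgroup.mem_top u)
        rw [hq, Subgroup.mem_bot] at h5
        exact commutatorElement_eq_one_iff_mul_comm.1 h5
      have hbc : b * π y = π y * b := by
        have h2 : b ∈ ⁅(⊤ : Subgroup (H ⧸ N)), (⊤ : Subgroup (H ⧸ N))⁆ := by
          have h3 : b ∈ (⁅(⊤ : Subgroup H), (⊤ : Subgroup H)⁆).map π := Subgroup.mem_map_of_mem π (h0 z)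
          rw [Subgroup.map_commutator] at h3
          exact Subgroup.commutator_mono le_top le_top h3
        have h5 : ⁅b, π y⁆ ∈ ⁅⁅(⊤ : Subgroup (H ⧸ N)), (⊤ : Subgroup (H ⧸ N))⁆, (lcs H i).map π⁆ :=
          Subgroup.commutator_mem_commutator h2 (Subgroup.mem_map_of_mem π hy)
        rw [hq2, Subgroup.mem_bot] at h5
        exact commutatorElement_eq_one_iff_mul_comm.1 h5
      rw [e1, e2, commutatorElement_def, commutatorElement_def, _root_.mul_inv_rev, _root_.mul_inv_rev]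
      have e3 : π y * a * (π z * b) * (a⁻¹ * (π y)⁻¹) * (b⁻¹ * (π z)⁻¹) =
          π y * (a * (π z * b)) * a⁻¹ * (π y)⁻¹ * b⁻¹ * (π z)⁻¹ := by group
      have e4 : b * (π y)⁻¹ = (π y)⁻¹ * b := by
        have : (π y)⁻¹ * (b * π y) * (π y)⁻¹ = (π y)⁻¹ * (π y * b) * (π y)⁻¹ := by rw [hbc]
        simpa [mul_assoc] using this.symm
      rw [e3, hac (π z * b)]
      calc π y * (π z * b * a) * a⁻¹ * (π y)⁻¹ * b⁻¹ * (π z)⁻¹
          = π y * π z * (b * (π y)⁻¹) * b⁻¹ * (π z)⁻¹ := by group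
        _ = π y * π z * ((π y)⁻¹ * b) * b⁻¹ * (π z)⁻¹ := by rw [e4]
        _ = π y * π z * (π y)⁻¹ * (π z)⁻¹ := by group
    intro x hx
    have h6 : π (ε x) = π x := hle hx
    have h7 : π (x⁻¹ * ε x) = 1 := by rw [map_mul, map_inv, h6, inv_mul_cancel]
    have h8 : x⁻¹ * ε x ∈ π.ker := h7
    rwa [hπ, QuotientGroup.ker_mk'] at h8

theorem t_UNI : S_UNI := by
  intro H _ n hn ε h0
  rw [injective_iff_map_eq_one]
  intro x hx
  have h : ∀ i, x ∈ lcs H i := by
    intro i
    induction i with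
    | zero => exact Subgroup.mem_top x
    | succ i ih =>
      have := step H ε h0 i x ih
      rw [hx, mul_one] at this
      exact (Subgroup.inv_mem_iff _).1 this
  have := h n
  rw [hn, Subgroup.mem_bot] at this
  exact this

end Pool.Agent.H635PF.JUNI
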