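import Mathlib
import Pool.Agent.H635PF.Stm

set_option autoImplicit false

namespace Pool.Agent.H635PF.JWORD

open Pool.Agent.H635PF Matrix

theorem coc_one {G R : Type} [Group G] [MulAction G R] (c : G → R → ℝ) (hc : IsCoc c) (w : R) :
    c 1 w = 0 := by
  have h := hc 1 1 w
  rw [mul_one, one_smul] at h
  linarith

theorem t_WORD : S_WORD := by
  intro G _ t T n hn
  induction hn using Subgroup.closure_induction with
  | mem x hx =>
    obtain ⟨i, rfl⟩ := hx
    refine ⟨[(1, i, 1)], ?_, ?_⟩
    · intro s hs
      rw [List.mem_singleton] at hs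
      subst hs
      exact one_mem _
    · intro R _ c _ w
      simp
  | one =>
    refine ⟨[], ?_, ?_⟩
    · intro s hs
      exact absurd hs List.not_mem_nil
    · intro R _ c hc w
      rw [coc_one c hc w]
      simp
  | mul x y hx hy ihx ihy =>
    obtain ⟨Lx, hLx, hx'⟩ := ihx
    obtain ⟨Ly, hLy, hy'⟩ := ihy
    refine ⟨Lx.map (fun s => (s.1, s.2.1, s.2.2 * y)) ++ Ly, ?_, ?_⟩
    · intro s hs
      rw [List.mem_append, List.mem_map] at hs
      rcases hs with ⟨r, hr, rfl⟩ | hs
      · exact mul_mem (hLx r hr) hy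
      · exact hLy s hs
    · intro R _ c hc w
      rw [hc x y w, hx' R c hc (y • w), hy' R c hc w, List.map_append, List.sum_append,
        List.map_map]
      congr 2
      refine List.map_congr_left fun s _ => ?_
      simp only [Function.comp_apply, mul_smul]
  | inv x hx ih =>
    obtain ⟨L, hL, hx'⟩ := ih
    refine ⟨L.map (fun s => (-s.1, s.2.1, s.2.2 * x⁻¹)), ?_, ?_⟩
    · intro s hs
      rw [List.mem_map] at hs
      obtain ⟨r, hr, rfl⟩ := hs
      exact mul_mem (hL r hr) (inv_mem hx)
    · intro R _ c hc w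
      have h1 := hc x x⁻¹ w
      rw [mul_inv_cancel, coc_one c hc w, hx' R c hc (x⁻¹ • w)] at h1
      have h2 : (List.map (fun s : ℝ × Fin t × G => s.1 * c (T s.2.1) (s.2.2 • w))
          (L.map (fun s => (-s.1, s.2.1, s.2.2 * x⁻¹)))).sum =
          -(L.map fun s => s.1 * c (T s.2.1) (s.2.2 • x⁻¹ • w)).sum := by
        clear hx' hL h1
        induction L with
        | nil => simp
        | cons s L ih =>
          simp only [List.map_cons, List.sum_cons] at ih ⊢
          rw [ih, mul_smul, neg_mul, neg_add]
      rw [h2]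
      linarith

end Pool.Agent.H635PF.JWORD
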