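import Mathlib
import Pool.Agent.H635PF.JGS
import Pool.Agent.H635PF.JBES
import Pool.Agent.H635PF.JOPV
import Pool.Agent.H635PF.JOPN
import Pool.Agent.H635PF.JLOC
import Pool.Agent.H635PF.JJV
import Pool.Agent.H635PF.JREL
import Pool.Agent.H635PF.JPK
import Pool.Agent.H635PF.JPSD
import Pool.Agent.H635PF.JLA
import Pool.Agent.H635PF.JHP
import Pool.Agent.H635PF.JBND
import Pool.Agent.H635PF.JUNI
import Pool.Agent.H635PF.JLIFT
import Pool.Agent.H635PF.JWORD
import Pool.Agent.H635PF.JSTEP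
import Pool.Agent.H635PF.JTHETA
import Pool.Agent.H635PF.JDIV
import Pool.Agent.H635PF.JCOC
import Pool.Agent.H635PF.JRP
import Pool.Agent.H635PF.JRF
import Pool.Agent.H635PF.JBIG
import Pool.Agent.H635PF.JCORE

set_option autoImplicit false

/-!
# Finitely generated normal subgroups of parafree groups: assembly
-/

namespace Pool.Agent.H635PF

theorem x_GS : S_GS := JGS.t_GS
theorem x_BES : S_BES := JBES.t_BES
theorem x_OPV : S_OPV := JOPV.t_OPV
theorem x_OPN : S_OPN := JOPN.t_OPN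
theorem x_LOC : S_LOC := JLOC.t_LOC
theorem x_JV : S_JV := JJV.t_JV
theorem x_REL : S_REL := JREL.t_REL x_OPV
theorem x_PK : S_PK := JPK.t_PK
theorem x_PSD : S_PSD := JPSD.t_PSD
theorem x_LA : S_LA := JLA.t_LA x_PSD
theorem x_HP : S_HP := JHP.t_HP
theorem x_WORD : S_WORD := JWORD.t_WORD
theorem x_BND : S_BND := JBND.t_BND x_WORD
theorem x_STEP : S_STEP := JSTEP.t_STEP x_LA x_GS x_BES x_REL x_JV
theorem x_CORE : S_CORE := JCORE.t_CORE x_STEP x_OPN x_LOC x_HP x_WORD x_BND x_PK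
theorem x_UNI : S_UNI := JUNI.t_UNI
theorem x_THETA : S_THETA := JTHETA.t_THETA x_UNI
theorem x_LIFT : S_LIFT := JLIFT.t_LIFT
theorem x_DIV : S_DIV := JDIV.t_DIV
theorem x_COC : S_COC := JCOC.t_COC x_LIFT x_DIV

/-- The assembly: everything but the residual property of free nilpotent groups and the case of
rank at most one. -/
theorem main (h1 : S_RF1) (h2 : S_SMALL) (P : Type) [Group P] (hP : IsParafree P)
    (N : Subgroup P) [hN : N.Normal] (hne : N ≠ ⊥) (hi : N.index = 0) : ¬ N.FG := by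
  intro hfg
  obtain ⟨hres, X, hX⟩ := hP
  obtain ⟨θ, hθ⟩ := x_THETA P X hX
  rcases subsingleton_or_nontrivial X with hs | hs
  · exact h2 P X θ hθ hres N hne hi
  · exact JBIG.t_BIG x_CORE x_COC (JRP.t_RP x_LIFT (JRF.t_RF h1)) P X θ hθ hres N hN hne hfg hi

end Pool.Agent.H635PF
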