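import Mathlib
import Pool.Agent.H635PF.Stm

set_option autoImplicit false

namespace Pool.Agent.H635PF.JSTEP

open Pool.Agent.H635PF Matrix

/-- The evaluation of a cocycle. -/
def ev {G R : Type} {t e : ℕ} (T : Fin t → G) (E : Fin e → G) (Dd : Finset R) (c : G → R → ℝ) :
    (Fin t × R) ⊕ (Fin e × Dd) → ℝ :=
  Sum.elim (fun q => c (T q.1) q.2) (fun q => c (E q.1) q.2.1)

theorem ev_comb {G R S : Type} [Fintype S] {t e : ℕ} (T : Fin t → G) (E : Fin e → G)
    (Dd : Finset R) (c : S → G → R → ℝ) (g : S → ℝ) :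
    ev T E Dd (∑ s, g s • c s) = ∑ s, g s • ev T E Dd (c s) := by
  funext q
  rcases q with ⟨i, w⟩ | ⟨j, d⟩
  · simp [ev, Finset.sum_apply]
  · simp [ev, Finset.sum_apply]

theorem coc_comb {G R S : Type} [Group G] [MulAction G R] [Fintype S] (c : S → G → R → ℝ)
    (hc : ∀ s, IsCoc (c s)) (g : S → ℝ) : IsCoc (∑ s, g s • c s) := by
  intro a b w
  simp only [Finset.sum_apply, Pi.smul_apply, smul_eq_mul]
  rw [← Finset.sum_add_distrib]
  refine Finset.sum_congr rfl fun s _ => ?_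
  rw [hc s a b w]; ring

theorem ev_dot {G R : Type} [Fintype R] {t e : ℕ} (T : Fin t → G) (E : Fin e → G) (Dd : Finset R)
    (c : G → R → ℝ) : ev T E Dd c ⬝ᵥ ev T E Dd c =
      (∑ i, ∑ w, c (T i) w ^ 2) + ∑ j, ∑ d ∈ Dd, c (E j) d ^ 2 := by
  simp only [dotProduct, Fintype.sum_sum_type, ev, Sum.elim_inl, Sum.elim_inr,
    Fintype.sum_prod_type]
  congr 1
  · refine Finset.sum_congr rfl fun i _ => Finset.sum_congr rfl fun w _ => by ring
  · refine Finset.sum_congr rfl fun j _ => ?_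
    rw [← Finset.sum_coe_sort Dd (fun d => c (E j) d ^ 2)]
    refine Finset.sum_congr rfl fun w _ => by ring

theorem vc_dot {G R : Type} [Fintype R] {t e M : ℕ} (T : Fin t → G) (E : Fin e → G)
    (f : Fin M → Fin e) (c : G → R → ℝ) : vc T (E ∘ f) c ⬝ᵥ vc T (E ∘ f) c ≤
      (M + 1) * ((∑ i, ∑ w, c (T i) w ^ 2) + ∑ j, ∑ w, c (E j) w ^ 2) := by
  have h0 : vc T (E ∘ f) c ⬝ᵥ vc T (E ∘ f) c =
      (∑ i, ∑ w, c (T i) w ^ 2) + ∑ x, ∑ w, c (E (f x)) w ^ 2 := by
    simp only [dotProduct, Fintype.sum_prod_type, Fintype.sum_sum_type, vc, Sum.elim_inl,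
      Sum.elim_inr, Function.comp]
    congr 1
    · refine Finset.sum_congr rfl fun i _ => Finset.sum_congr rfl fun w _ => by ring
    · refine Finset.sum_congr rfl fun i _ => Finset.sum_congr rfl fun w _ => by ring
  have hx : ∀ x : Fin M, ∑ w, c (E (f x)) w ^ 2 ≤ ∑ j, ∑ w, c (E j) w ^ 2 := fun x =>
    Finset.single_le_sum (f := fun j => ∑ w, c (E j) w ^ 2)
      (fun j _ => Finset.sum_nonneg fun w _ => sq_nonneg _) (Finset.mem_univ (f x))
  have hs : ∑ x : Fin M, ∑ w, c (E (f x)) w ^ 2 ≤ M * ∑ j, ∑ w, c (E j) w ^ 2 := by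
    refine (Finset.sum_le_sum fun x _ => hx x).trans ?_
    simp
  have hT : 0 ≤ ∑ i, ∑ w, c (T i) w ^ 2 :=
    Finset.sum_nonneg fun j _ => Finset.sum_nonneg fun w _ => sq_nonneg _
  have hE : 0 ≤ ∑ j, ∑ w, c (E j) w ^ 2 :=
    Finset.sum_nonneg fun j _ => Finset.sum_nonneg fun w _ => sq_nonneg _
  rw [h0]
  have hM : (0 : ℝ) ≤ M := Nat.cast_nonneg M
  nlinarith [mul_nonneg hM hT]

theorem t_STEP (h1 : S_LA) (h2 : S_GS) (h3 : S_BES) (h4 : S_REL) (h5 : S_JV) : S_STEP := by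
  intro G _ t e k M T E y f Wd R _ _ _ Dd Λ C m hΛ hC hW hM hB hP hc
  obtain ⟨c, hcc, hc1, hc0⟩ := hc
  have hli : LinearIndependent ℝ (fun s : Fin k × R => ev T E Dd (c s)) := by
    rw [Fintype.linearIndependent_iff]
    intro g hg s
    have hev : ev T E Dd (∑ s, g s • c s) = 0 := by rw [ev_comb]; exact hg
    have hb := hB _ (coc_comb c hcc g)
    rw [← ev_dot T E Dd, hev] at hb
    simp only [dotProduct_zero, mul_zero] at hb
    have hT : 0 ≤ ∑ i, ∑ w, (∑ s, g s • c s) (T i) w ^ 2 :=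
      Finset.sum_nonneg fun j _ => Finset.sum_nonneg fun w _ => sq_nonneg _
    have hx : (∑ s, g s • c s) (E (y s.1)) s.2 ^ 2 ≤
        ∑ j, ∑ w, (∑ s, g s • c s) (E j) w ^ 2 :=
      (Finset.single_le_sum (f := fun w => (∑ s, g s • c s) (E (y s.1)) w ^ 2)
        (fun w _ => sq_nonneg _) (Finset.mem_univ s.2)).trans
      (Finset.single_le_sum (f := fun j => ∑ w, (∑ s, g s • c s) (E j) w ^ 2)
        (fun j _ => Finset.sum_nonneg fun w _ => sq_nonneg _) (Finset.mem_univ (y s.1)))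
    have hz : (∑ s, g s • c s) (E (y s.1)) s.2 = 0 := by
      have : (∑ s, g s • c s) (E (y s.1)) s.2 ^ 2 ≤ 0 := by linarith
      exact pow_eq_zero_iff (two_ne_zero) |>.1 (le_antisymm this (sq_nonneg _))
    have hg' : (∑ s', g s' • c s') (E (y s.1)) s.2 = g s := by
      simp only [Finset.sum_apply, Pi.smul_apply, smul_eq_mul]
      rw [Finset.sum_eq_single s]
      · rw [hc1 s, mul_one]
      · intro b _ hbs
        rw [hc0 b s.1 s.2 hbs, mul_zero]
      · intro h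
        exact absurd (Finset.mem_univ _) h
    rw [← hg', hz]
  obtain ⟨lam, hlam⟩ := h2 _ _ _ hli
  have hz1 : ∀ a b : Fin (Fintype.card (Fin k × R)),
      ev T E Dd (∑ s, lam a s • c s) ⬝ᵥ ev T E Dd (∑ s, lam b s • c s) =
        if a = b then 1 else 0 := by
    intro a b
    rw [ev_comb, ev_comb]
    exact hlam a b
  have hcoc : ∀ a : Fin (Fintype.card (Fin k × R)), IsCoc (∑ s, lam a s • c s) := fun a =>
    coc_comb c hcc (lam a)
  have hJ : ∀ a : Fin (Fintype.card (Fin k × R)),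
      Jm t M (E ∘ f) R (Fin e × Dd) *ᵥ ev T E Dd (∑ s, lam a s • c s) =
        opM (spc T (E ∘ f) Wd) R *ᵥ vc T (E ∘ f) (∑ s, lam a s • c s) := by
    intro a
    funext q
    obtain ⟨⟨i, x⟩, w⟩ := q
    rw [(h5 G t M (E ∘ f) R (Fin e × Dd) _).1 i x w]
    rw [h4 G t M T (E ∘ f) Wd R (∑ s, lam a s • c s) (hcoc a)
      (fun i x w => hW _ (hcoc a) i x w) i x w]
    rfl
  have hM0 : (0 : ℝ) ≤ M := Nat.cast_nonneg M
  have hL : ∀ a : Fin (Fintype.card (Fin k × R)),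
      vc T (E ∘ f) (∑ s, lam a s • c s) ⬝ᵥ vc T (E ∘ f) (∑ s, lam a s • c s) ≤
        ((M : ℝ) + 1) * C := by
    intro a
    refine (vc_dot T E f _).trans ?_
    refine mul_le_mul_of_nonneg_left ?_ (by linarith)
    have hb := hB _ (hcoc a)
    rw [← ev_dot T E Dd, hz1 a a] at hb
    simpa using hb
  have key := h1 ((Fin t × Fin M) × R) ((Fin t ⊕ Fin M) × R) ((Fin t × R) ⊕ (Fin e × Dd))
    (opM (spc T (E ∘ f) Wd) R) Λ (((M : ℝ) + 1) * C) hΛ (mul_nonneg (by linarith) hC) hM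
    (Jm t M (E ∘ f) R (Fin e × Dd)) (Fintype.card (Fin k × R))
    (fun a => ev T E Dd (∑ s, lam a s • c s)) hz1
    (fun a => vc T (E ∘ f) (∑ s, lam a s • c s)) hL hJ m hP
  have hbes : ∀ q : (Fin t × R) ⊕ (Fin e × Dd),
      ∑ a : Fin (Fintype.card (Fin k × R)), ev T E Dd (∑ s, lam a s • c s) q ^ 2 ≤ 1 :=
    h3 _ _ _ hz1
  have hJJ : ∀ a : Fin (Fintype.card (Fin k × R)),
      (Jm t M (E ∘ f) R (Fin e × Dd) *ᵥ ev T E Dd (∑ s, lam a s • c s)) ⬝ᵥ
        (Jm t M (E ∘ f) R (Fin e × Dd) *ᵥ ev T E Dd (∑ s, lam a s • c s)) =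
      M * (1 - ∑ q : Fin e × Dd, ev T E Dd (∑ s, lam a s • c s) (Sum.inr q) ^ 2) := by
    intro a
    rw [(h5 G t M (E ∘ f) R (Fin e × Dd) _).2]
    congr 1
    have hq := hz1 a a
    rw [if_pos rfl] at hq
    simp only [dotProduct, Fintype.sum_sum_type] at hq
    rw [Fintype.sum_prod_type] at hq
    have e1 : ∀ (A B A' B' : ℝ), A + B = 1 → A = A' → B = B' → A' = 1 - B' := by
      intro A B A' B' h h' h''
      linarith
    refine e1 _ _ _ _ hq ?_ ?_
    · exact Finset.sum_congr rfl fun i _ => Finset.sum_congr rfl fun w _ => by ring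
    · exact Finset.sum_congr rfl fun i _ => by ring
  simp only [hJJ] at key
  rw [← Finset.mul_sum, Finset.sum_sub_distrib, Finset.sum_comm] at key
  have hsum : ∑ q : Fin e × Dd, ∑ a : Fin (Fintype.card (Fin k × R)),
      ev T E Dd (∑ s, lam a s • c s) (Sum.inr q) ^ 2 ≤ (e : ℝ) * Dd.card := by
    refine (Finset.sum_le_sum fun q _ => hbes (Sum.inr q)).trans ?_
    simp
  have hcard : ((Fintype.card (Fin k × R) : ℕ) : ℝ) = k * Fintype.card R := by
    simp
  have hcard2 : ((Fintype.card ((Fin t ⊕ Fin M) × R) : ℕ) : ℝ) = (t + M) * Fintype.card R := by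
    simp
  rw [hcard2] at key
  simp only [Finset.sum_const, Finset.card_univ, Fintype.card_fin, nsmul_eq_mul, mul_one] at key
  rw [hcard] at key
  refine le_trans ?_ key
  refine mul_le_mul_of_nonneg_left ?_ hM0
  linarith

end Pool.Agent.H635PF.JSTEP
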