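import Mathlib
import Pool.Agent.H635PF.Stm
import Pool.Agent.H32CE.TMAG
import Pool.Agent.H32CE.TGRL
import Pool.Agent.H32CE.TINJ
import Pool.Agent.H32CE.TBAS
import Pool.Agent.H32CE.TLYN
import Pool.Agent.H32CE.TINT

set_option autoImplicit false

/-!
Free nilpotent groups of finite rank are residually finite `p`-groups: the images of the Magnus
expansion with factorial denominators cleared, modulo powers of `p`.
-/

namespace Pool.Agent.H635PF.RFOne

open Pool.Agent.H32CE Pool.Agent.H32CE.TINT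

theorem mag_one' {ι : Type} : mag (1 : FreeGroup ι) = 1 := by unfold mag; rw [map_one]; rfl

theorem mag_mul' {ι : Type} (x y : FreeGroup ι) : mag (x * y) = mag x * mag y := by
  unfold mag; rw [map_mul]; rfl

theorem mag_inv_mul {ι : Type} (x : FreeGroup ι) : mag x⁻¹ * mag x = 1 := by
  rw [← mag_mul', inv_mul_cancel, mag_one']

theorem mag_mul_inv {ι : Type} (x : FreeGroup ι) : mag x * mag x⁻¹ = 1 := by
  rw [← mag_mul', mul_inv_cancel, mag_one']

/-- `k!` times the `k`-th coefficient is `q` times an integral element, for all `k ≤ n`. -/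
def Z {ι : Type} (q n : ℕ) (f : PS (T ι)) : Prop :=
  ∀ k ≤ n, ∃ g ∈ R0 ι, k.factorial • PowerSeries.coeff k f = q • g

theorem Z_zero {ι : Type} (q n : ℕ) : Z q n (0 : PS (T ι)) := fun k _ =>
  ⟨0, zero_mem _, by simp⟩

theorem Z_add {ι : Type} {q n : ℕ} {f g : PS (T ι)} (hf : Z q n f) (hg : Z q n g) :
    Z q n (f + g) := by
  intro k hk
  obtain ⟨a, ha, h1⟩ := hf k hk
  obtain ⟨b, hb, h2⟩ := hg k hk
  exact ⟨a + b, add_mem ha hb, by rw [map_add, smul_add, h1, h2, smul_add]⟩

theorem Z_neg {ι : Type} {q n : ℕ} {f : PS (T ι)} (hf : Z q n f) : Z q n (-f) := by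
  intro k hk
  obtain ⟨a, ha, h1⟩ := hf k hk
  exact ⟨-a, neg_mem ha, by rw [map_neg, smul_neg, h1, smul_neg]⟩

theorem Z_mul_right {ι : Type} {q n : ℕ} {f g : PS (T ι)} (hf : Z q n f) (hg : Q g) :
    Z q n (f * g) := by
  intro k hk
  choose! F hF hF' using hf
  refine ⟨∑ p ∈ Finset.HasAntidiagonal.antidiagonal k, (k.choose p.1) •
    (F p.1 * (p.2.factorial • PowerSeries.coeff p.2 g)), ?_, ?_⟩
  · apply sum_mem
    rintro ⟨a, b⟩ hab
    rw [Finset.HasAntidiagonal.mem_antidiagonal] at hab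
    exact nsmul_mem (mul_mem (hF a (by simp only at hab; omega)) (hg b)) _
  · rw [PowerSeries.coeff_mul, Finset.smul_sum, Finset.smul_sum]
    apply Finset.sum_congr rfl
    rintro ⟨a, b⟩ hab
    rw [Finset.HasAntidiagonal.mem_antidiagonal] at hab
    simp only at hab ⊢
    have h1 : k.factorial = k.choose a * (a.factorial * b.factorial) := by
      rw [← hab]
      have := Nat.add_choose_mul_factorial_mul_factorial a b
      rw [← Nat.choose_symm_add] at this
      rw [← this]; ring
    have h2 : k.factorial • (PowerSeries.coeff a f * PowerSeries.coeff b g) =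
        k.choose a • ((a.factorial • PowerSeries.coeff a f) *
          (b.factorial • PowerSeries.coeff b g)) := by
      rw [h1, mul_smul, smul_mul_smul_comm]
    rw [h2, hF' a (by omega), smul_mul_assoc, smul_comm]

theorem Z_mul_left {ι : Type} {q n : ℕ} {f g : PS (T ι)} (hg : Q g) (hf : Z q n f) :
    Z q n (g * f) := by
  intro k hk
  choose! F hF hF' using hf
  refine ⟨∑ p ∈ Finset.HasAntidiagonal.antidiagonal k, (k.choose p.1) •
    ((p.1.factorial • PowerSeries.coeff p.1 g) * F p.2), ?_, ?_⟩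
  · apply sum_mem
    rintro ⟨a, b⟩ hab
    rw [Finset.HasAntidiagonal.mem_antidiagonal] at hab
    exact nsmul_mem (mul_mem (hg a) (hF b (by simp only at hab; omega))) _
  · rw [PowerSeries.coeff_mul, Finset.smul_sum, Finset.smul_sum]
    apply Finset.sum_congr rfl
    rintro ⟨a, b⟩ hab
    rw [Finset.HasAntidiagonal.mem_antidiagonal] at hab
    simp only at hab ⊢
    have h1 : k.factorial = k.choose a * (a.factorial * b.factorial) := by
      rw [← hab]
      have := Nat.add_choose_mul_factorial_mul_factorial a b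
      rw [← Nat.choose_symm_add] at this
      rw [← this]; ring
    have h2 : k.factorial • (PowerSeries.coeff a g * PowerSeries.coeff b f) =
        k.choose a • ((a.factorial • PowerSeries.coeff a g) *
          (b.factorial • PowerSeries.coeff b f)) := by
      rw [h1, mul_smul, smul_mul_smul_comm]
    rw [h2, hF' b (by omega), mul_smul_comm, smul_comm]

theorem Z_nsmul {ι : Type} {q n c : ℕ} {f : PS (T ι)} (hq : q ∣ c) (hf : Q f) :
    Z q n (c • f) := by
  intro k _
  obtain ⟨d, rfl⟩ := hq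
  refine ⟨d • (k.factorial • PowerSeries.coeff k f), nsmul_mem (hf k) _, ?_⟩
  rw [map_nsmul, smul_smul, smul_smul, smul_smul]
  congr 1; ring

theorem Z_of_ordge {ι : Type} {q n : ℕ} {f : PS (T ι)} (hf : ordge (n + 1) f) : Z q n f := by
  intro k hk
  exact ⟨0, zero_mem _, by rw [hf k (by omega)]; simp⟩

theorem Z_sum {ι : Type} {q n : ℕ} {α : Type} (s : Finset α) (f : α → PS (T ι))
    (h : ∀ a ∈ s, Z q n (f a)) : Z q n (∑ a ∈ s, f a) := by
  classical
  induction s using Finset.induction_on with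
  | empty => simpa using Z_zero q n
  | insert a s ha ih =>
    rw [Finset.sum_insert ha]
    exact Z_add (h a (Finset.mem_insert_self _ _))
      (ih fun b hb => h b (Finset.mem_insert_of_mem hb))

/-- The congruence subgroup. -/
noncomputable def K (ι : Type) (q n : ℕ) : Subgroup (FreeGroup ι) where
  carrier := {x | Z q n (mag x - 1)}
  mul_mem' := by
    intro x y hx hy
    show Z q n (mag (x * y) - 1)
    have : mag (x * y) - 1 = (mag x - 1) * mag y + (mag y - 1) := by
      rw [mag_mul']; noncomm_ring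
    rw [this]
    exact Z_add (Z_mul_right hx (Q_mag y)) hy
  one_mem' := by
    show Z q n (mag 1 - 1)
    rw [mag_one', sub_self]; exact Z_zero q n
  inv_mem' := by
    intro x hx
    show Z q n (mag x⁻¹ - 1)
    have : mag x⁻¹ - 1 = -((mag x - 1) * mag x⁻¹) := by
      rw [sub_mul, mag_mul_inv]; noncomm_ring
    rw [this]
    exact Z_neg (Z_mul_right hx (Q_mag _))

theorem mem_K {ι : Type} {q n : ℕ} {x : FreeGroup ι} : x ∈ K ι q n ↔ Z q n (mag x - 1) := Iff.rfl

instance K_normal (ι : Type) (q n : ℕ) : (K ι q n).Normal where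
  conj_mem := by
    intro x hx g
    rw [mem_K] at hx ⊢
    have : mag (g * x * g⁻¹) - 1 = mag g * (mag x - 1) * mag g⁻¹ := by
      rw [mag_mul', mag_mul', mul_sub, sub_mul, mul_one, mag_mul_inv]
    rw [this]
    exact Z_mul_right (Z_mul_left (Q_mag g) hx) (Q_mag _)

theorem coeff_sub_one {ι : Type} (x : FreeGroup ι) (h0 : PowerSeries.coeff 0 (mag x) = 1) (k : ℕ) :
    PowerSeries.coeff k (mag x - 1) = if k = 0 then 0 else cf k x := by
  rw [map_sub, PowerSeries.coeff_one]
  split_ifs with h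
  · rw [h, h0, sub_self]
  · rw [sub_zero]; rfl

theorem D_le_K {ι : Type} (q n : ℕ) (x : FreeGroup ι) (h0 : PowerSeries.coeff 0 (mag x) = 1)
    (h : D (n + 1) x) : x ∈ K ι q n := by
  rw [mem_K]
  apply Z_of_ordge
  intro i hi
  rw [coeff_sub_one x h0]
  split_ifs with hi0
  · rfl
  · exact h i (by omega) hi

/-- powers of an element of order at least one -/
theorem ordge_mul {A : Type} [Ring A] {a b : ℕ} {f g : PS A} (hf : ordge a f) (hg : ordge b g) :
    ordge (a + b) (f * g) := by
  intro k hk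
  rw [PowerSeries.coeff_mul]
  apply Finset.sum_eq_zero
  rintro ⟨i, j⟩ hij
  rw [Finset.HasAntidiagonal.mem_antidiagonal] at hij
  simp only at hij ⊢
  by_cases h : i < a
  · rw [hf i h, zero_mul]
  · rw [hg j (by omega), mul_zero]

theorem ordge_pow {A : Type} [Ring A] {f : PS A} (hf : ordge 1 f) (j : ℕ) : ordge j (f ^ j) := by
  induction j with
  | zero => intro i hi; omega
  | succ j ih => rw [pow_succ]; exact ordge_mul ih hf

theorem Q_sub {ι : Type} {f g : PS (T ι)} (hf : Q f) (hg : Q g) : Q (f - g) := by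
  intro k
  rw [map_sub, smul_sub]
  exact sub_mem (hf k) (hg k)

theorem Q_pow {ι : Type} {f : PS (T ι)} (hf : Q f) (j : ℕ) : Q (f ^ j) := by
  induction j with
  | zero => rw [pow_zero]; exact Q_one
  | succ j ih => rw [pow_succ]; exact Q_mul ih hf

theorem dvd_choose {p : ℕ} (hp : p.Prime) (m n j : ℕ) (h1 : 1 ≤ j) (h2 : j ≤ n) :
    p ^ m ∣ (p ^ (m + n)).choose j := by
  obtain ⟨a, j', hj', hj⟩ := Nat.exists_eq_pow_mul_and_not_dvd (n := j) (by omega) p
    hp.one_lt.ne'
  have han : a < n := by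
    have h3 : p ^ a ≤ j := by
      rw [hj]
      exact Nat.le_mul_of_pos_right _ (Nat.pos_of_ne_zero (by rintro rfl; simp at hj'))
    have h4 : a < p ^ a := Nat.lt_pow_self hp.one_lt
    omega
  obtain ⟨N, hN⟩ : ∃ N, p ^ (m + n) = N + 1 := ⟨p ^ (m + n) - 1, by
    have : 0 < p ^ (m + n) := pow_pos hp.pos _
    omega⟩
  obtain ⟨i, rfl⟩ : ∃ i, j = i + 1 := ⟨j - 1, by omega⟩
  have h5 : p ^ (m + n) ∣ (p ^ (m + n)).choose (i + 1) * (i + 1) := by
    rw [hN, ← Nat.add_one_mul_choose_eq]
    exact Dvd.intro _ rfl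
  rw [hj] at h5
  have h6 : p ^ (m + n) = p ^ a * p ^ (m + (n - a)) := by
    rw [← pow_add]; congr 1; omega
  have h7 : p ^ a * p ^ (m + (n - a)) ∣ p ^ a * (j' * (p ^ (m + n)).choose (p ^ a * j')) := by
    rw [← h6]
    refine h5.trans (dvd_of_eq ?_)
    ring
  have h8 : p ^ (m + (n - a)) ∣ j' * (p ^ (m + n)).choose (p ^ a * j') :=
    Nat.dvd_of_mul_dvd_mul_left (pow_pos hp.pos _) h7
  have h9 := hp.prime.pow_dvd_of_dvd_mul_left _ hj' h8
  rw [← hj] at h9
  exact (pow_dvd_pow p (by omega)).trans h9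

theorem pow_mem_K {ι : Type} {p : ℕ} (hp : p.Prime) (m n : ℕ) (x : FreeGroup ι)
    (h0 : PowerSeries.coeff 0 (mag x) = 1) : x ^ (p ^ (m + n)) ∈ K ι (p ^ m) n := by
  rw [mem_K]
  have hpow : mag (x ^ (p ^ (m + n))) = mag x ^ (p ^ (m + n)) := by
    unfold mag; rw [map_pow]; rfl
  set u : PS (T ι) := mag x - 1 with hu
  have hx : mag x = u + 1 := by rw [hu]; abel
  have ho : ordge 1 u := by
    intro i hi
    have : i = 0 := by omega
    rw [hu, coeff_sub_one x h0, if_pos this]
  have hQ : Q u := Q_sub (Q_mag x) Q_one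
  rw [hpow, hx, (Commute.one_right u).add_pow, Finset.sum_range_succ']
  simp only [one_pow, mul_one, pow_zero, Nat.choose_zero_right, Nat.cast_one, add_sub_cancel_right]
  apply Z_sum
  intro j _
  have hc : u ^ (j + 1) * ((p ^ (m + n)).choose (j + 1) : PS (T ι)) =
      (p ^ (m + n)).choose (j + 1) • u ^ (j + 1) := by
    rw [nsmul_eq_mul, Nat.cast_comm]
  rw [hc]
  by_cases hj : j + 1 ≤ n
  · exact Z_nsmul (dvd_choose hp m n (j + 1) (by omega) hj) (Q_pow hQ _)
  · apply Z_of_ordge
    intro i hi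
    rw [map_nsmul, ordge_pow ho (j + 1) i (by omega), smul_zero]

/-- words of length at most `n` -/
theorem finite_words (r n : ℕ) : Finite {m : FreeMonoid (Fin r) // (FreeMonoid.toList m).length ≤ n} := by
  have h := List.finite_length_le (Fin r) n
  exact Set.Finite.to_subtype (h.preimage FreeMonoid.toList.injective.injOn)

theorem wd_one {ι : Type} (m : FreeMonoid ι) : wd (fun _ => 1) m = (FreeMonoid.toList m).length := by
  simp [wd]

theorem t_RF1' (hM : S_MAG) (hB : S_BAS) : S_RF1 := by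
  intro r p hpf n w hw
  have hp : p.Prime := Fact.out
  obtain ⟨hb0, _, _, _, _, _, _, _, _, hbH, _⟩ := hB (Fin r)
  -- a nonzero coefficient
  have h1 : ¬ D (n + 1) w := fun h => hw ((hM r n w).1 h)
  unfold D at h1
  push Not at h1
  obtain ⟨i, hi1, hi2, hi3⟩ := h1
  obtain ⟨u, hu⟩ : ∃ u, (cf i w).coeff u ≠ 0 := by
    by_contra hcon
    push Not at hcon
    exact hi3 (MonoidAlgebra.ext (Finsupp.ext hcon))
  obtain ⟨z, hz⟩ := t_INT (Fin r) i w u
  have hz0 : z ≠ 0 := by
    rintro rfl
    have : (i.factorial : ℝ) ≠ 0 := by positivity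
    rw [Int.cast_zero] at hz
    exact (mul_ne_zero this hu) hz
  obtain ⟨m, hm⟩ : ∃ m : ℕ, ¬ ((p ^ m : ℕ) : ℤ) ∣ z := by
    refine ⟨z.natAbs, fun h => ?_⟩
    have h2 := Int.natAbs_dvd_natAbs.2 h
    rw [Int.natAbs_natCast] at h2
    have h3 := Nat.le_of_dvd (Int.natAbs_pos.2 hz0) h2
    exact absurd (Nat.lt_pow_self hp.one_lt : z.natAbs < p ^ z.natAbs) (by omega)
  -- the group
  have hlcs : lcs (FreeGroup (Fin r) ⧸ K (Fin r) (p ^ m) n) n = ⊥ := by
    have h2 : Subgroup.map (QuotientGroup.mk' (K (Fin r) (p ^ m) n)) ⊤ = ⊤ := by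
      rw [← MonoidHom.range_eq_map, MonoidHom.range_eq_top]
      exact QuotientGroup.mk'_surjective _
    have h3 := Subgroup.map_lowerCentralSeries (⊤ : Subgroup (FreeGroup (Fin r)))
      (QuotientGroup.mk' (K (Fin r) (p ^ m) n)) n
    rw [h2] at h3
    show (⊤ : Subgroup _).lowerCentralSeries n = ⊥
    rw [← h3, Subgroup.map_eq_bot_iff, QuotientGroup.ker_mk']
    intro x hx
    exact D_le_K (p ^ m) n x (hb0 x) ((hM r n x).2 hx)
  have hnot : (QuotientGroup.mk' (K (Fin r) (p ^ m) n)) w ≠ 1 := by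
    intro h
    have h2 : w ∈ K (Fin r) (p ^ m) n := by
      rwa [QuotientGroup.mk'_apply, QuotientGroup.eq_one_iff] at h
    obtain ⟨g, hg, hg'⟩ := h2 i (by omega)
    rw [coeff_sub_one w (hb0 w), if_neg (by omega)] at hg'
    obtain ⟨y, hy⟩ := R0_coeff hg u
    apply hm
    refine ⟨y, ?_⟩
    have h3 : (i.factorial • cf i w).coeff u = (p ^ m • g).coeff u := by rw [hg']
    have h4 : (i.factorial • cf i w).coeff u = (i.factorial : ℝ) * (cf i w).coeff u := by
      rw [← Nat.cast_smul_eq_nsmul ℝ]; rfl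
    have h5 : (p ^ m • g).coeff u = ((p ^ m : ℕ) : ℝ) * g.coeff u := by
      rw [← Nat.cast_smul_eq_nsmul ℝ]; rfl
    rw [h4, h5, hz, hy] at h3
    exact_mod_cast h3
  have hfin : Finite (FreeGroup (Fin r) ⧸ K (Fin r) (p ^ m) n) := by
    haveI := finite_words r n
    haveI : NeZero (p ^ m) := ⟨(pow_pos hp.pos m).ne'⟩
    choose c hc using fun (x : FreeGroup (Fin r)) (v : FreeMonoid (Fin r)) =>
      t_INT (Fin r) (FreeMonoid.toList v).length x v
    refine Finite.of_injective (β := {v : FreeMonoid (Fin r) // (FreeMonoid.toList v).length ≤ n} →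
      ZMod (p ^ m)) (fun a v => (c a.out v.1 : ZMod (p ^ m))) ?_
    intro a b hab
    rw [← QuotientGroup.out_eq' a, ← QuotientGroup.out_eq' b, QuotientGroup.eq]
    set x := a.out
    set y := b.out
    have h2 : Z (p ^ m) n (mag y - mag x) := by
      intro k hk
      have h3 : ∀ v : FreeMonoid (Fin r), ∃ d : ℤ,
          (k.factorial : ℝ) * ((cf k y).coeff v - (cf k x).coeff v) = (p ^ m : ℕ) * d := by
        intro v
        by_cases hv : (FreeMonoid.toList v).length = k
        · have h4 : (c x v : ZMod (p ^ m)) = c y v := congrFun hab ⟨v, by omega⟩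
          rw [ZMod.intCast_eq_intCast_iff_dvd_sub] at h4
          obtain ⟨d, hd⟩ := h4
          refine ⟨d, ?_⟩
          have h5 := hc x v
          have h6 := hc y v
          rw [hv] at h5 h6
          rw [mul_sub, h5, h6]
          exact_mod_cast hd
        · refine ⟨0, ?_⟩
          have h5 : (cf k x).coeff v = 0 := by
            by_contra h; exact hv (by rw [← wd_one]; exact hbH k x v h)
          have h6 : (cf k y).coeff v = 0 := by
            by_contra h; exact hv (by rw [← wd_one]; exact hbH k y v h)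
          rw [h5, h6]; simp
      choose d hd using h3
      have hq0 : ((p ^ m : ℕ) : ℝ) ≠ 0 := by
        have := hp.pos
        positivity
      have hk0 : (k.factorial : ℝ) ≠ 0 := by positivity
      have hsupp : ∀ v, d v ≠ 0 → v ∈ (cf k y - cf k x).coeff.support := by
        intro v hv
        rw [Finsupp.mem_support_iff]
        intro h
        apply hv
        have h7 : (cf k y).coeff v - (cf k x).coeff v = 0 := h
        have h8 := hd v
        rw [h7, mul_zero] at h8
        rcases mul_eq_zero.1 h8.symm with h9 | h9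
        · exact absurd h9 hq0
        · exact_mod_cast h9
      refine ⟨MonoidAlgebra.mapRingHom (FreeMonoid (Fin r)) (Int.castRingHom ℝ)
        (MonoidAlgebra.ofCoeff (Finsupp.onFinset _ d hsupp)), ⟨_, rfl⟩, ?_⟩
      apply MonoidAlgebra.ext
      apply Finsupp.ext
      intro v
      have h10 : (k.factorial • PowerSeries.coeff k (mag y - mag x)).coeff v =
          (k.factorial : ℝ) * ((cf k y).coeff v - (cf k x).coeff v) := by
        rw [← Nat.cast_smul_eq_nsmul ℝ, map_sub]; rfl
      rw [h10, hd v, ← Nat.cast_smul_eq_nsmul ℝ]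
      simp
    have h3 : mag (x⁻¹ * y) - 1 = mag x⁻¹ * (mag y - mag x) := by
      rw [mag_mul', mul_sub, mag_inv_mul]
    rw [mem_K, h3]
    exact Z_mul_left (Q_mag _) h2
  refine ⟨FreeGroup (Fin r) ⧸ K (Fin r) (p ^ m) n, inferInstance, hfin, QuotientGroup.mk' _,
    ?_, hlcs, hnot⟩
  intro a
  obtain ⟨x, rfl⟩ := QuotientGroup.mk'_surjective _ a
  refine ⟨m + n, ?_⟩
  rw [← map_pow, QuotientGroup.mk'_apply, QuotientGroup.eq_one_iff]
  exact pow_mem_K hp m n x (hb0 x)

theorem x_MAG : S_MAG := t_MAG t_GRL (t_INJ t_LYN) t_BAS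

theorem x_RF1 : S_RF1 := t_RF1' x_MAG t_BAS

end Pool.Agent.H635PF.RFOne
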