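import Mathlib
import Pool.Agent.H635PF.Stm

set_option autoImplicit false

/-!
Parafree groups of rank at most one are cyclic.
-/

namespace Pool.Agent.H635PF.Small

theorem lcs_antitone (G : Type) [Group G] : Antitone (lcs G) :=
  fun _ _ h => Subgroup.lowerCentralSeries_antitone _ h

theorem t_SMALL' : S_SMALL := by
  intro P X _ _ θ hθ hres N hne
  obtain ⟨h1, h2⟩ := hθ
  -- the free group is commutative
  have hF : ∀ n, 1 ≤ n → lcs (FreeGroup X) n = ⊥ := by
    intro n hn
    rw [eq_bot_iff]
    refine (lcs_antitone (FreeGroup X) hn).trans ?_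
    have hc : ∀ a b : FreeGroup X, a * b = b * a := by
      rcases isEmpty_or_nonempty X with hX | ⟨⟨x⟩⟩
      · intro a b
        exact Subsingleton.elim _ _
      · have hgen : ∀ a : FreeGroup X, a ∈ Subgroup.zpowers (FreeGroup.of x) := by
          intro a
          induction a using FreeGroup.induction_on with
          | C1 => exact one_mem _
          | of y => rw [Subsingleton.elim y x]; exact Subgroup.mem_zpowers _
          | inv_of y _ => rw [Subsingleton.elim y x]; exact inv_mem (Subgroup.mem_zpowers _)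
          | mul a b ha hb => exact mul_mem ha hb
        intro a b
        obtain ⟨i, rfl⟩ := hgen a
        obtain ⟨j, rfl⟩ := hgen b
        show FreeGroup.of x ^ i * FreeGroup.of x ^ j = FreeGroup.of x ^ j * FreeGroup.of x ^ i
        rw [← zpow_add, ← zpow_add, add_comm]
    show (⊤ : Subgroup (FreeGroup X)).lowerCentralSeries 1 ≤ ⊥
    rw [Subgroup.lowerCentralSeries_succ, Subgroup.commutator_le]
    intro a _ b _
    rw [Subgroup.mem_bot, commutatorElement_eq_one_iff_mul_comm]
    exact hc a b
  -- hence `P` is the image of the free group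
  have hP : ∀ n, 1 ≤ n → ∀ g ∈ lcs P 1, g ∈ lcs P n := by
    intro n hn g hg
    obtain ⟨w, hw⟩ := h2 n g
    have hw1 : θ w ∈ lcs P 1 := by
      have h3 : (θ w)⁻¹ * g ∈ lcs P 1 := lcs_antitone P hn hw
      have h4 : (θ w)⁻¹ ∈ lcs P 1 := by
        have := mul_mem h3 (inv_mem hg)
        rwa [mul_assoc, mul_inv_cancel, mul_one] at this
      exact inv_mem_iff.1 h4
    have hw2 : w = 1 := by
      have := h1 1 w hw1
      rwa [hF 1 le_rfl, Subgroup.mem_bot] at this
    rwa [hw2, map_one, inv_one, one_mul] at hw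
  have hP1 : lcs P 1 = ⊥ := by
    rw [eq_bot_iff, ← hres]
    intro g hg
    rw [Subgroup.mem_iInf]
    intro n
    rcases Nat.eq_zero_or_pos n with h0 | h0
    · rw [h0]; show g ∈ (⊤ : Subgroup P).lowerCentralSeries 0; simp
    · exact hP n h0 g hg
  have hsurj : ∀ g : P, ∃ w, θ w = g := by
    intro g
    obtain ⟨w, hw⟩ := h2 1 g
    rw [hP1, Subgroup.mem_bot] at hw
    exact ⟨w, by rw [← mul_one (θ w), ← hw]; group⟩
  -- cyclic
  rcases isEmpty_or_nonempty X with hX | ⟨⟨x⟩⟩
  · exfalso
    apply hne
    rw [eq_bot_iff]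
    intro g _
    obtain ⟨w, rfl⟩ := hsurj g
    rw [Subsingleton.elim w 1, map_one]; exact one_mem _
  · have hgen : ∀ a : FreeGroup X, a ∈ Subgroup.zpowers (FreeGroup.of x) := by
      intro a
      induction a using FreeGroup.induction_on with
      | C1 => exact one_mem _
      | of y => rw [Subsingleton.elim y x]; exact Subgroup.mem_zpowers _
      | inv_of y _ => rw [Subsingleton.elim y x]; exact inv_mem (Subgroup.mem_zpowers _)
      | mul a b ha hb => exact mul_mem ha hb
    set y : P := θ (FreeGroup.of x) with hy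
    have hPg : ∀ g : P, ∃ i : ℤ, g = y ^ i := by
      intro g
      obtain ⟨w, rfl⟩ := hsurj g
      obtain ⟨i, rfl⟩ := hgen w
      exact ⟨i, by show θ (FreeGroup.of x ^ i) = _; rw [map_zpow]⟩
    obtain ⟨g, hg, hg1⟩ : ∃ g, g ∈ N ∧ g ≠ 1 := by
      obtain ⟨a, ha⟩ := Subgroup.ne_bot_iff_exists_ne_one.1 hne
      exact ⟨a.1, a.2, fun h => ha (Subtype.ext h)⟩
    obtain ⟨i, rfl⟩ := hPg g
    have hi : i ≠ 0 := by rintro rfl; exact hg1 (zpow_zero _)
    -- finitely many cosets
    have hfin : Finite (P ⧸ N) := by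
      refine Finite.of_surjective (α := Fin i.natAbs)
        (fun k => (QuotientGroup.mk (y ^ (k : ℕ)) : P ⧸ N)) ?_
      intro a
      obtain ⟨b, rfl⟩ := QuotientGroup.mk_surjective a
      obtain ⟨j, rfl⟩ := hPg b
      have h3 : 0 ≤ j % i := Int.emod_nonneg _ hi
      have h4 : j % i < i.natAbs := by
        have := Int.emod_lt_abs j hi
        rwa [Int.abs_eq_natAbs] at this
      refine ⟨⟨(j % i).toNat, by omega⟩, ?_⟩
      simp only
      rw [QuotientGroup.eq]
      have h5 : (y ^ (j % i).toNat)⁻¹ * y ^ j = (y ^ i) ^ (j / i) := by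
        rw [← zpow_natCast, Int.toNat_of_nonneg h3, ← zpow_neg, ← zpow_add, ← zpow_mul]
        congr 1
        have := Int.emod_add_mul_ediv j i
        linarith
      rw [h5]
      exact zpow_mem hg _
    exact Subgroup.index_ne_zero_of_finite

end Pool.Agent.H635PF.Small
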