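import Mathlib
import Pool.Agent.H635PF.Asm
import Pool.Agent.H635PF.RFOne
import Pool.Agent.H635PF.Small

set_option autoImplicit false

/-!
# Finitely generated normal subgroups of parafree groups: the theorem
-/

namespace Pool.Agent.H635PF

/-- A nontrivial normal subgroup of infinite index of a parafree group is not finitely
generated. -/
theorem not_fg_of_parafree (P : Type) [Group P] (hP : IsParafree P)
    (N : Subgroup P) [N.Normal] (hne : N ≠ ⊥) (hi : N.index = 0) : ¬ N.FG :=
  main RFOne.x_RF1 Small.t_SMALL' P hP N hne hi

end Pool.Agent.H635PF
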